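import Pool.Agent.Helper99.CA.Tree

/-!
# Transfer of the fluctuation probability from a regular tree to the words model
-/

open MeasureTheory Set ProbabilityTheory
open Pool.Agent.Helper94.CCA

namespace Pool.Agent.Helper99.CA

variable {d κ : ℕ}

lemma iterate_comp_equiv {U V X : Type*} (f : U → V) (F : (V → X) → V → X)
    (F' : (U → X) → U → X) (h : ∀ ω, F ω ∘ f = F' (ω ∘ f)) (t : ℕ) (ω : V → X) :
    F^[t] ω ∘ f = F'^[t] (ω ∘ f) := by
  induction t generalizing ω with
  | zero => rfl
  | succ t ih => rw [Function.iterate_succ_apply, Function.iterate_succ_apply, ih, h]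

theorem fluct_equiv {U V : Type*} (f : U → V) (F : (V → Fin κ) → V → Fin κ)
    (F' : (U → Fin κ) → U → Fin κ) (h : ∀ ω, F ω ∘ f = F' (ω ∘ f)) (ω : V → Fin κ) (u : U) :
    Fluct F ω (f u) ↔ Fluct F' (ω ∘ f) u := by
  unfold Fluct
  have : {t : ℕ | F^[t + 1] ω (f u) ≠ F^[t] ω (f u)} =
      {t : ℕ | F'^[t + 1] (ω ∘ f) u ≠ F'^[t] (ω ∘ f) u} := by
    ext t
    rw [mem_ofPred_eq, mem_ofPred_eq, ← iterate_comp_equiv f F F' h,
      ← iterate_comp_equiv f F F' h]
    rfl
  rw [this]

theorem law_comp_equiv {U V : Type*} [NeZero κ] (f : U ≃ V) {A : Set (U → Fin κ)}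
    (hA : MeasurableSet A) : law V κ {ω | ω ∘ f ∈ A} = law U κ A := by
  have h := Measure.map_infinitePi_infinitePi_of_inj
    (P := fun _ : V => (PMF.uniformOfFintype (Fin κ)).toMeasure) f.injective
  have hm : Measurable (fun ω : V → Fin κ => fun i => ω (f i)) :=
    measurable_pi_iff.2 fun v => measurable_pi_apply (f v)
  have h2 : law U κ = (law V κ).map (fun ω : V → Fin κ => fun i => ω (f i)) := by
    unfold law; exact h.symm
  rw [h2, Measure.map_apply hm hA]
  rfl

/-- The fluctuation probabilities of the root on a `(d + 1)`-regular tree are those on the words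
model. -/
theorem transfer {V : Type*} (G : SimpleGraph V) (hG : G.IsTree) (d : ℕ) (hd : 1 ≤ d)
    (hdeg : ∀ v, (G.neighborSet v).ncard = d + 1) (κ θ : ℕ) [NeZero κ] (ρ : V) :
    law V κ {ω | Fluct (ccaStep G κ θ) ω ρ} =
      law (Vert d) κ {ω | Fluct (ccaL (wordsLab d hd) κ θ) ω root} ∧
    law V κ {ω | Fluct (ghmStep G κ θ) ω ρ} =
      law (Vert d) κ {ω | Fluct (ghmL (wordsLab d hd) κ θ) ω root} := by
  obtain ⟨f, hf, hf2⟩ := exists_equiv_words G hG hdeg ρ
  have hL : ∀ v u, G.Adj v u ↔ ∃ a, u = ((wordsLab d hd).map f).nb v a := by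
    intro v u
    have h := hf2 (f.symm v) u
    rw [f.apply_symm_apply] at h
    exact h
  have hnb : ∀ (v : Vert d) a, ((wordsLab d hd).map f).nb (f v) a = f (wnb v a) := by
    intro v a
    change f (wnb (f.symm (f v)) a) = _
    rw [f.symm_apply_apply]
  have hcount : Countable (Vert d) := inferInstance
  rw [ccaStep_eq hL κ θ, ghmStep_eq hL κ θ, ← hf]
  constructor
  · have h1 : ∀ ω : V → Fin κ, ccaL ((wordsLab d hd).map f) κ θ ω ∘ f =
        ccaL (wordsLab d hd) κ θ (ω ∘ f) := by
      intro ω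
      funext v
      simp only [ccaL, Function.comp_apply, hnb]
      rfl
    rw [← law_comp_equiv f (measurableSet_fluct (measurable_ccaL (wordsLab d hd) κ θ) root)]
    congr 1
    ext ω
    exact fluct_equiv f _ _ h1 ω root
  · have h1 : ∀ ω : V → Fin κ, ghmL ((wordsLab d hd).map f) κ θ ω ∘ f =
        ghmL (wordsLab d hd) κ θ (ω ∘ f) := by
      intro ω
      funext v
      simp only [ghmL, Function.comp_apply, hnb]
      rfl
    rw [← law_comp_equiv f (measurableSet_fluct (measurable_ghmL (wordsLab d hd) κ θ) root)]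
    congr 1
    ext ω
    exact fluct_equiv f _ _ h1 ω root

end Pool.Agent.Helper99.CA
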