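import Pool.Agent.Helper99.CA.Count
import Pool.Agent.Helper94.CCA.Words
import Pool.Agent.Helper94.CCA.Transfer
import Pool.Agent.Helper94.CCA.Bridge

/-!
# The rooted regular tree: functions of the descendants of a vertex
-/

open MeasureTheory Set ProbabilityTheory
open Pool.Agent.Helper94.CCA

namespace Pool.Agent.Helper99.CA

variable {d κ : ℕ} {S T : Type*}

/-- The labels of the edges from `v` to its children (away from the root). -/
def ch (v : Vert d) : Finset (Fin (d + 1)) := Finset.univ.filter fun a => v.1.head? ≠ some a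

lemma mem_ch {v : Vert d} {a : Fin (d + 1)} : a ∈ ch v ↔ v.1.head? ≠ some a := by
  simp [ch]

lemma wnb_of_mem_ch {v : Vert d} {a : Fin (d + 1)} (h : a ∈ ch v) : (wnb v a).1 = a :: v.1 :=
  wnb_cons v a (mem_ch.1 h)

lemma card_ch_root : (ch (root : Vert d)).card = d + 1 := by
  simp [ch, root]

lemma eq_root_or (v : Vert d) : v = root ∨ ∃ b, v.1.head? = some b := by
  obtain ⟨l, hl⟩ := v
  cases l with
  | nil => left; rfl
  | cons b l => right; exact ⟨b, rfl⟩

lemma ch_eq_erase {v : Vert d} {b : Fin (d + 1)} (hb : v.1.head? = some b) :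
    ch v = Finset.univ.erase b := by
  ext a
  simp only [mem_ch, hb, ne_eq, Option.some.injEq, Finset.mem_erase, Finset.mem_univ, and_true]
  exact ⟨fun h h' => h h'.symm, fun h h' => h h'.symm⟩

lemma card_ch {v : Vert d} (hv : v ≠ root) : (ch v).card = d := by
  rcases eq_root_or v with h | ⟨b, hb⟩
  · exact absurd h hv
  · rw [ch_eq_erase hb, Finset.card_erase_of_mem (Finset.mem_univ _)]
    simp

lemma child_ne_root {v : Vert d} {a : Fin (d + 1)} (h : a ∈ ch v) : wnb v a ≠ root := by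
  intro h2
  have := wnb_of_mem_ch h
  rw [h2] at this
  simp [root] at this

/-- the parent of a child of `v` is `v` -/
lemma head_child {v : Vert d} {a : Fin (d + 1)} (h : a ∈ ch v) :
    (wnb v a).1.head? = some a := by
  rw [wnb_of_mem_ch h]; rfl

/-- `X` depends on finitely many coordinates of descendants of `v` (`v` included). -/
def LDep (v : Vert d) (X : (Vert d → Fin κ) → S) : Prop :=
  ∃ K : Finset (Vert d), (∀ u ∈ K, v.1 <:+ u.1) ∧ Dep K X

lemma LDep.comp {v : Vert d} {X : (Vert d → Fin κ) → S} (h : LDep v X) (φ : S → T) :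
    LDep v (fun ω => φ (X ω)) := by
  obtain ⟨K, h1, h2⟩ := h
  exact ⟨K, h1, h2.comp φ⟩

lemma LDep.congr {v : Vert d} {X Y : (Vert d → Fin κ) → S} (h : LDep v X)
    (hXY : ∀ ω, X ω = Y ω) : LDep v Y := by
  have : X = Y := funext hXY
  exact this ▸ h

lemma LDep.self (v : Vert d) : LDep (κ := κ) v (fun ω => ω v) :=
  ⟨{v}, fun u hu => by rw [Finset.mem_singleton.1 hu], Dep.coord (Finset.mem_singleton_self v)⟩

/-- Pairwise disjoint finite sets on which the functions of the children depend. -/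
theorem exists_sep (v : Vert d) (X : Fin (d + 1) → (Vert d → Fin κ) → S)
    (h : ∀ a ∈ ch v, LDep (wnb v a) (X a)) :
    ∃ K : Fin (d + 1) → Finset (Vert d), ((ch v : Finset (Fin (d + 1))) : Set _).PairwiseDisjoint K ∧
      (∀ a ∈ ch v, Dep (K a) (X a)) ∧ (∀ a ∈ ch v, v ∉ K a) ∧
      ∀ a ∈ ch v, ∀ u ∈ K a, v.1 <:+ u.1 := by
  classical
  choose! K h1 h2 using h
  have h3 : ∀ a ∈ ch v, ∀ u ∈ K a, (a :: v.1) <:+ u.1 := by
    intro a ha u hu
    rw [← wnb_of_mem_ch ha]
    exact h1 a ha u hu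
  refine ⟨K, ?_, h2, ?_, ?_⟩
  · intro a ha b hb hab
    change Disjoint (K a) (K b)
    rw [Finset.disjoint_left]
    intro u hu hu'
    have s1 := h3 a ha u hu
    have s2 := h3 b hb u hu'
    have s3 : (a :: v.1) <:+ (b :: v.1) := List.suffix_of_suffix_length_le s1 s2 (by simp)
    have s4 := s3.eq_of_length (by simp)
    exact hab (by simpa using s4)
  · intro a ha hv
    have := (h3 a ha v hv).length_le
    simp at this
  · intro a ha u hu
    exact (List.suffix_cons a v.1).trans (h3 a ha u hu)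

lemma LDep.children (v : Vert d) (X : Fin (d + 1) → (Vert d → Fin κ) → S)
    (h : ∀ a ∈ ch v, LDep (wnb v a) (X a)) :
    LDep v (fun ω => (ω v, fun a : {a // a ∈ ch v} => X a.1 ω)) := by
  classical
  obtain ⟨K, -, h2, -, h4⟩ := exists_sep v X h
  refine ⟨insert v ((ch v).biUnion K), ?_, ?_⟩
  · intro u hu
    rcases Finset.mem_insert.1 hu with rfl | hu
    · exact List.suffix_rfl
    · obtain ⟨a, ha, hu'⟩ := Finset.mem_biUnion.1 hu
      exact h4 a ha u hu'
  · intro ω ω' hω
    refine Prod.ext (hω v (Finset.mem_insert_self _ _)) (funext fun a => ?_)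
    exact h2 a.1 a.2 ω ω' fun u hu =>
      hω u (Finset.mem_insert_of_mem (Finset.mem_biUnion.2 ⟨a.1, a.2, hu⟩))

variable [NeZero κ]

lemma LDep.measurableSet {v : Vert d} {A : Set (Vert d → Fin κ)} (h : LDep v (fun ω => ω ∈ A)) :
    MeasurableSet A := by
  obtain ⟨K, -, h2⟩ := h
  exact h2.measurableSet

lemma LDep.cnt (v : Vert d) (A : Fin (d + 1) → Set (Vert d → Fin κ))
    (hA : ∀ a ∈ ch v, LDep (wnb v a) (fun ω => ω ∈ A a)) : LDep v (cnt (ch v) A) := by
  classical
  obtain ⟨K, -, h2, -, h4⟩ := exists_sep v (fun a ω => ω ∈ A a) hA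
  refine ⟨(ch v).biUnion K, ?_, dep_cnt _ K A h2⟩
  intro u hu
  obtain ⟨a, ha, hu'⟩ := Finset.mem_biUnion.1 hu
  exact h4 a ha u hu'

/-- Subset count for the children of a vertex. -/
theorem tree_cnt_ge (v : Vert d) (A : Fin (d + 1) → Set (Vert d → Fin κ))
    (hA : ∀ a ∈ ch v, LDep (wnb v a) (fun ω => ω ∈ A a)) {p : ℝ}
    (hp : ∀ a ∈ ch v, (law (Vert d) κ).real (A a) ≤ p) (m r : ℕ) :
    (law (Vert d) κ).real {ω | m ≤ Pool.Agent.Helper99.CA.cnt (ch v) A ω} * (m.choose r : ℝ) ≤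
      ((ch v).card.choose r : ℝ) * p ^ r := by
  obtain ⟨K, h1, h2, -, -⟩ := exists_sep v (fun a ω => ω ∈ A a) hA
  exact cnt_ge _ K h1 A h2 hp m r

/-- Lower tail for the children of a vertex. -/
theorem tree_cnt_le (v : Vert d) (A : Fin (d + 1) → Set (Vert d → Fin κ))
    (hA : ∀ a ∈ ch v, LDep (wnb v a) (fun ω => ω ∈ A a)) {p : ℝ}
    (hp : ∀ a ∈ ch v, p ≤ (law (Vert d) κ).real (A a)) (m : ℕ) {z : ℝ} (hz0 : 0 ≤ z)
    (hz1 : z ≤ 1) :
    (law (Vert d) κ).real {ω | Pool.Agent.Helper99.CA.cnt (ch v) A ω ≤ m} * z ^ m ≤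
      (1 - (1 - z) * p) ^ (ch v).card := by
  obtain ⟨K, h1, h2, -, -⟩ := exists_sep v (fun a ω => ω ∈ A a) hA
  exact cnt_le _ K h1 A h2 hp m hz0 hz1

/-- The value at `v` is independent of the number of events of the children. -/
theorem tree_self_inter (v : Vert d) (A : Fin (d + 1) → Set (Vert d → Fin κ))
    (hA : ∀ a ∈ ch v, LDep (wnb v a) (fun ω => ω ∈ A a)) (Q : Fin κ → Prop) (R : ℕ → Prop) :
    (law (Vert d) κ).real {ω | Q (ω v) ∧ R (Pool.Agent.Helper99.CA.cnt (ch v) A ω)} =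
      (law (Vert d) κ).real {ω | Q (ω v)} *
        (law (Vert d) κ).real {ω | R (Pool.Agent.Helper99.CA.cnt (ch v) A ω)} := by
  classical
  obtain ⟨K, -, h2, h3, -⟩ := exists_sep v (fun a ω => ω ∈ A a) hA
  have hd : Disjoint {v} ((ch v).biUnion K) := by
    rw [Finset.disjoint_singleton_left, Finset.mem_biUnion]
    rintro ⟨a, ha, hv⟩
    exact h3 a ha hv
  exact law_inter_of_dep hd (A := {ω | Q (ω v)})
    (B := {ω | R (Pool.Agent.Helper99.CA.cnt (ch v) A ω)})
    ((Dep.coord (Finset.mem_singleton_self v)).comp Q) ((dep_cnt _ K A h2).comp R)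

/-- The colour of a vertex is uniform. -/
theorem law_coord {V : Type*} (v : V) (s : Finset (Fin κ)) :
    (law V κ).real {ω : V → Fin κ | ω v ∈ s} = (s.card : ℝ) / κ := by
  classical
  have h1 : (law V κ).map (fun ω : V → Fin κ => ω v) =
      (PMF.uniformOfFintype (Fin κ)).toMeasure := by
    unfold law
    exact Measure.infinitePi_map_eval (fun _ : V => (PMF.uniformOfFintype (Fin κ)).toMeasure) v
  have h2 : (law V κ) {ω : V → Fin κ | ω v ∈ s} =
      (PMF.uniformOfFintype (Fin κ)).toMeasure (s : Set (Fin κ)) := by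
    rw [← h1, Measure.map_apply (measurable_pi_apply v) (Set.toFinite _).measurableSet]
    rfl
  rw [measureReal_def, h2, PMF.toMeasure_uniformOfFintype_apply _ (Set.toFinite _).measurableSet]
  simp

end Pool.Agent.Helper99.CA
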