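import Pool.Agent.Helper99.CA.Indep

/-!
# Tail bounds for the number of independent events that occur
-/

open MeasureTheory Set ProbabilityTheory
open scoped ENNReal
open Pool.Agent.Helper94.CCA

namespace Pool.Agent.Helper99.CA

variable {V : Type*} {κ : ℕ} [NeZero κ]

lemma Dep.integrable {K : Finset V} {f : (V → Fin κ) → ℝ} (hf : Dep K f) :
    Integrable f (law V κ) := by
  classical
  have hfin : (range f).Finite := by
    have : range f ⊆ range (fun x : K → Fin κ => f (fun v => if h : v ∈ K then x ⟨v, h⟩ else 0)) := by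
      rintro _ ⟨ω, rfl⟩
      refine ⟨fun i => ω i.1, ?_⟩
      refine hf _ _ fun v hv => ?_
      simp [hv]
    exact (Set.finite_range _).subset this
  obtain ⟨C, hC⟩ := hfin.isBounded.exists_norm_le
  exact Integrable.of_bound hf.measurable.aestronglyMeasurable C
    (Filter.Eventually.of_forall fun ω => hC _ ⟨ω, rfl⟩)

theorem integral_prod_of_dep {J : Type*} (s : Finset J) (K : J → Finset V)
    (hK : (s : Set J).PairwiseDisjoint K) (f : J → (V → Fin κ) → ℝ)
    (hf : ∀ j ∈ s, Dep (K j) (f j)) :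
    ∫ ω, ∏ j ∈ s, f j ω ∂law V κ = ∏ j ∈ s, ∫ ω, f j ω ∂law V κ := by
  classical
  induction s using Finset.induction_on with
  | empty => simp
  | insert a s ha ih =>
    have hK' : (s : Set J).PairwiseDisjoint K :=
      hK.subset (by simp)
    have hf' : ∀ j ∈ s, Dep (K j) (f j) := fun j hj => hf j (Finset.mem_insert_of_mem hj)
    have hdis : Disjoint (K a) (s.biUnion K) := by
      rw [Finset.disjoint_biUnion_right]
      intro j hj
      exact hK (by simp) (by simp [hj]) (fun h => ha (h ▸ hj))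
    have hdep : Dep (s.biUnion K) (fun ω => ∏ j ∈ s, f j ω) := by
      intro ω ω' hω
      exact Finset.prod_congr rfl fun j hj => hf' j hj ω ω' fun v hv =>
        hω v (Finset.mem_biUnion.2 ⟨j, hj, hv⟩)
    have hfa := hf a (Finset.mem_insert_self a s)
    simp only [Finset.prod_insert ha]
    rw [(indepFun_of_dep hdis hfa hdep).integral_fun_mul_eq_mul_integral
      hfa.measurable.aestronglyMeasurable hdep.measurable.aestronglyMeasurable, ih hK' hf']

open Classical in
/-- the number of events `A j`, `j ∈ s`, that occur -/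
noncomputable def cnt {J : Type*} (s : Finset J) (A : J → Set (V → Fin κ)) (ω : V → Fin κ) : ℕ :=
  (s.filter fun j => ω ∈ A j).card

lemma dep_cnt {J : Type*} [DecidableEq V] (s : Finset J) (K : J → Finset V)
    (A : J → Set (V → Fin κ)) (hA : ∀ j ∈ s, Dep (K j) (fun ω => ω ∈ A j)) :
    Dep (s.biUnion K) (cnt s A) := by
  classical
  intro ω ω' hω
  unfold cnt
  congr 1
  refine Finset.filter_congr fun j hj => ?_
  exact Eq.to_iff (hA j hj ω ω' fun v hv => hω v (Finset.mem_biUnion.2 ⟨j, hj, hv⟩))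

open Classical in
lemma integral_ind {K : Finset V} {A : Set (V → Fin κ)} (hA : Dep K (fun ω => ω ∈ A)) (x y : ℝ) :
    ∫ ω, (if ω ∈ A then x else y) ∂law V κ = x * (law V κ).real A + y * (1 - (law V κ).real A) := by
  have hm := hA.measurableSet
  have h1 : (fun ω : V → Fin κ => if ω ∈ A then x else y) =
      fun ω => A.indicator (fun _ => x - y) ω + y := by
    funext ω
    by_cases h : ω ∈ A <;> simp [h]
  rw [h1, integral_add (((integrable_const _).indicator hm)) (integrable_const _),
    integral_indicator hm]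
  simp only [integral_const, probReal_univ, smul_eq_mul, measureReal_restrict_apply_univ]
  ring

/-- Subset count: if each of the independent events `A j`, `j ∈ s`, has probability at most `p`,
then `P(at least m occur) * C(m, r) ≤ C(#s, r) * p ^ r`. -/
theorem cnt_ge {J : Type*} (s : Finset J) (K : J → Finset V)
    (hK : (s : Set J).PairwiseDisjoint K) (A : J → Set (V → Fin κ))
    (hA : ∀ j ∈ s, Dep (K j) (fun ω => ω ∈ A j)) {p : ℝ} (hp : ∀ j ∈ s, (law V κ).real (A j) ≤ p)
    (m r : ℕ) :
    (law V κ).real {ω | m ≤ cnt s A ω} * (m.choose r : ℝ) ≤ (s.card.choose r : ℝ) * p ^ r := by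
  classical
  have hdep := dep_cnt s K A hA
  have hset : Dep (s.biUnion K) (fun ω => ω ∈ {ω | m ≤ cnt s A ω}) := hdep.comp (fun n => m ≤ n)
  have h1 : (law V κ).real {ω | m ≤ cnt s A ω} * (m.choose r : ℝ) ≤
      ∫ ω, ((cnt s A ω).choose r : ℝ) ∂law V κ := by
    have h2 := integral_ind hset (m.choose r : ℝ) 0
    rw [mul_comm, ← add_zero ((m.choose r : ℝ) * _), ← zero_mul (1 - _), ← h2]
    refine integral_mono (hset.comp (fun b => if b then (m.choose r : ℝ) else 0)).integrable
      (hdep.comp (fun n => ((n.choose r : ℕ) : ℝ))).integrable fun ω => ?_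
    simp only [mem_ofPred_eq]
    split_ifs with h
    · exact_mod_cast Nat.choose_le_choose r h
    · positivity
  refine h1.trans ?_
  have h3 : ∀ ω : V → Fin κ, ((cnt s A ω).choose r : ℝ) =
      ∑ T ∈ s.powersetCard r, ∏ j ∈ T, (if ω ∈ A j then (1 : ℝ) else 0) := by
    intro ω
    unfold cnt
    rw [← Finset.card_powersetCard]
    rw [Finset.card_eq_sum_ones, Nat.cast_sum]
    rw [← Finset.sum_filter_add_sum_filter_not (s.powersetCard r)
      (fun T => ∀ j ∈ T, ω ∈ A j)]
    have h4 : ∑ T ∈ (s.powersetCard r).filter (fun T => ¬ ∀ j ∈ T, ω ∈ A j),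
        ∏ j ∈ T, (if ω ∈ A j then (1 : ℝ) else 0) = 0 := by
      refine Finset.sum_eq_zero fun T hT => ?_
      have := (Finset.mem_filter.1 hT).2
      push Not at this
      obtain ⟨j, hj, hj'⟩ := this
      exact Finset.prod_eq_zero hj (by simp [hj'])
    rw [h4, add_zero]
    have h5 : (s.filter fun j => ω ∈ A j).powersetCard r =
        (s.powersetCard r).filter (fun T => ∀ j ∈ T, ω ∈ A j) := by
      ext T
      simp only [Finset.mem_powersetCard, Finset.mem_filter, Finset.subset_iff]
      constructor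
      · rintro ⟨h, h'⟩
        exact ⟨⟨fun j hj => (h hj).1, h'⟩, fun j hj => (h hj).2⟩
      · rintro ⟨⟨h, h'⟩, h''⟩
        exact ⟨fun j hj => ⟨h hj, h'' j hj⟩, h'⟩
    rw [h5]
    refine Finset.sum_congr rfl fun T hT => ?_
    have := (Finset.mem_filter.1 hT).2
    rw [Finset.prod_congr rfl (fun j hj => if_pos (this j hj))]
    simp
  simp_rw [h3]
  rw [integral_finsetSum _ (fun T hT => ?_)]
  · have h6 : ∀ T ∈ s.powersetCard r,
        ∫ ω, ∏ j ∈ T, (if ω ∈ A j then (1 : ℝ) else 0) ∂law V κ ≤ p ^ r := by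
      intro T hT
      obtain ⟨hTs, hTr⟩ := Finset.mem_powersetCard.1 hT
      rw [integral_prod_of_dep T K (hK.subset (by exact_mod_cast hTs)) _
        (fun j hj => (hA j (hTs hj)).comp (fun b => if b then (1 : ℝ) else 0))]
      rw [← hTr, ← Finset.prod_const]
      refine Finset.prod_le_prod (fun j _ => integral_nonneg fun ω => by dsimp only; positivity)
        fun j hj => ?_
      rw [integral_ind (hA j (hTs hj))]
      simpa using hp j (hTs hj)
    calc ∑ T ∈ s.powersetCard r, ∫ ω, ∏ j ∈ T, (if ω ∈ A j then (1 : ℝ) else 0) ∂law V κ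
        ≤ ∑ _T ∈ s.powersetCard r, p ^ r := Finset.sum_le_sum h6
      _ = (s.card.choose r : ℝ) * p ^ r := by
        rw [Finset.sum_const, Finset.card_powersetCard, nsmul_eq_mul]
  · obtain ⟨hTs, hTr⟩ := Finset.mem_powersetCard.1 hT
    have : Dep (T.biUnion K) (fun ω => ∏ j ∈ T, (if ω ∈ A j then (1 : ℝ) else 0)) := by
      intro ω ω' hω
      exact Finset.prod_congr rfl fun j hj =>
        ((hA j (hTs hj)).comp (fun b => if b then (1 : ℝ) else 0)) ω ω' fun v hv =>
        hω v (Finset.mem_biUnion.2 ⟨j, hj, hv⟩)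
    exact this.integrable

/-- Exponential moment of the number of events that occur. -/
theorem integral_pow_cnt {J : Type*} (s : Finset J) (K : J → Finset V)
    (hK : (s : Set J).PairwiseDisjoint K) (A : J → Set (V → Fin κ))
    (hA : ∀ j ∈ s, Dep (K j) (fun ω => ω ∈ A j)) (z : ℝ) :
    ∫ ω, z ^ cnt s A ω ∂law V κ = ∏ j ∈ s, (1 + (z - 1) * (law V κ).real (A j)) := by
  classical
  have h1 : ∀ ω : V → Fin κ, z ^ cnt s A ω = ∏ j ∈ s, (if ω ∈ A j then z else 1) := by
    intro ω
    unfold cnt
    rw [Finset.prod_ite]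
    simp
  simp_rw [h1]
  rw [integral_prod_of_dep s K hK _ (fun j hj => (hA j hj).comp (fun b => if b then z else 1))]
  refine Finset.prod_congr rfl fun j hj => ?_
  rw [integral_ind (hA j hj)]
  ring

/-- Lower tail: if each of the independent events `A j`, `j ∈ s`, has probability at least `p`,
then `P(at most m occur) * z ^ m ≤ (1 - (1 - z) * p) ^ #s` for `0 ≤ z ≤ 1`. -/
theorem cnt_le {J : Type*} (s : Finset J) (K : J → Finset V)
    (hK : (s : Set J).PairwiseDisjoint K) (A : J → Set (V → Fin κ))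
    (hA : ∀ j ∈ s, Dep (K j) (fun ω => ω ∈ A j)) {p : ℝ} (hp : ∀ j ∈ s, p ≤ (law V κ).real (A j))
    (m : ℕ) {z : ℝ} (hz0 : 0 ≤ z) (hz1 : z ≤ 1) :
    (law V κ).real {ω | cnt s A ω ≤ m} * z ^ m ≤ (1 - (1 - z) * p) ^ s.card := by
  classical
  have hdep := dep_cnt s K A hA
  have hset : Dep (s.biUnion K) (fun ω => ω ∈ {ω | cnt s A ω ≤ m}) := hdep.comp (fun n => n ≤ m)
  have h1 : (law V κ).real {ω | cnt s A ω ≤ m} * z ^ m ≤ ∫ ω, z ^ cnt s A ω ∂law V κ := by
    have h2 := integral_ind hset (z ^ m) 0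
    rw [mul_comm, ← add_zero (z ^ m * _), ← zero_mul (1 - _), ← h2]
    refine integral_mono (hset.comp (fun b => if b then z ^ m else 0)).integrable
      (hdep.comp (fun n => z ^ n)).integrable fun ω => ?_
    simp only [mem_ofPred_eq]
    split_ifs with h
    · exact pow_le_pow_of_le_one hz0 hz1 h
    · positivity
  refine h1.trans ?_
  rw [integral_pow_cnt s K hK A hA, ← Finset.prod_const]
  refine Finset.prod_le_prod (fun j hj => ?_) fun j hj => ?_
  · have h3 : (law V κ).real (A j) ≤ 1 := measureReal_le_one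
    have h4 : 0 ≤ (law V κ).real (A j) := measureReal_nonneg
    nlinarith
  · have := hp j hj
    nlinarith

/-- Upper tail: if each of the independent events `A j`, `j ∈ s`, has probability at most `p`,
then `P(at least m occur) * z ^ m ≤ (1 + (z - 1) * p) ^ #s` for `1 ≤ z`. -/
theorem cnt_ge_exp {J : Type*} (s : Finset J) (K : J → Finset V)
    (hK : (s : Set J).PairwiseDisjoint K) (A : J → Set (V → Fin κ))
    (hA : ∀ j ∈ s, Dep (K j) (fun ω => ω ∈ A j)) {p : ℝ} (hp : ∀ j ∈ s, (law V κ).real (A j) ≤ p)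
    (m : ℕ) {z : ℝ} (hz1 : 1 ≤ z) :
    (law V κ).real {ω | m ≤ cnt s A ω} * z ^ m ≤ (1 + (z - 1) * p) ^ s.card := by
  classical
  have hdep := dep_cnt s K A hA
  have hset : Dep (s.biUnion K) (fun ω => ω ∈ {ω | m ≤ cnt s A ω}) := hdep.comp (fun n => m ≤ n)
  have h1 : (law V κ).real {ω | m ≤ cnt s A ω} * z ^ m ≤ ∫ ω, z ^ cnt s A ω ∂law V κ := by
    have h2 := integral_ind hset (z ^ m) 0
    rw [mul_comm, ← add_zero (z ^ m * _), ← zero_mul (1 - _), ← h2]
    refine integral_mono (hset.comp (fun b => if b then z ^ m else 0)).integrable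
      (hdep.comp (fun n => z ^ n)).integrable fun ω => ?_
    simp only [mem_ofPred_eq]
    split_ifs with h
    · exact pow_le_pow_right₀ hz1 h
    · positivity
  refine h1.trans ?_
  rw [integral_pow_cnt s K hK A hA, ← Finset.prod_const]
  refine Finset.prod_le_prod (fun j hj => ?_) fun j hj => ?_
  · have h4 : 0 ≤ (law V κ).real (A j) := measureReal_nonneg
    nlinarith
  · have := hp j hj
    nlinarith

/-- Product formula for an intersection of two independent events. -/
theorem law_inter_of_dep {K K' : Finset V} (hd : Disjoint K K') {A B : Set (V → Fin κ)}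
    (hA : Dep K (fun ω => ω ∈ A)) (hB : Dep K' (fun ω => ω ∈ B)) :
    (law V κ).real (A ∩ B) = (law V κ).real A * (law V κ).real B := by
  have h := indepFun_of_dep (S := Prop) (T := Prop) hd hA hB
  have h2 := h.measure_inter_preimage_eq_mul {True} {True} (Set.toFinite _).measurableSet
    (Set.toFinite _).measurableSet
  have e1 : (fun ω : V → Fin κ => ω ∈ A) ⁻¹' {True} = A := by ext ω; simp
  have e2 : (fun ω : V → Fin κ => ω ∈ B) ⁻¹' {True} = B := by ext ω; simp
  rw [e1, e2] at h2
  simp only [measureReal_def, h2, ENNReal.toReal_mul]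

end Pool.Agent.Helper99.CA
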