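import Pool.Agent.Helper99.CA.Move

/-!
# Fluctuation: the deterministic part
-/

open MeasureTheory Set ProbabilityTheory
open Pool.Agent.Helper94.CCA

namespace Pool.Agent.Helper99.CA

variable {d κ : ℕ} [NeZero κ]

/-- A dynamics in which a vertex keeps its colour or advances it by one, and certainly advances if
at least `θ` neighbours have the next colour. -/
structure Adv (θ : ℕ) (F : (Vert d → Fin κ) → Vert d → Fin κ) : Prop where
  adv : ∀ ξ v, θ ≤ (Finset.univ.filter fun a => ξ (wnb v a) = ξ v + 1).card → F ξ v = ξ v + 1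
  or : ∀ ξ v, F ξ v = ξ v ∨ F ξ v = ξ v + 1

theorem adv_cca (hd : 1 ≤ d) (θ : ℕ) : Adv θ (ccaL (wordsLab d hd) κ θ) where
  adv ξ v h := by
    change (if θ ≤ (Finset.univ.filter fun a => ξ (wnb v a) = ξ v + 1).card then ξ v + 1 else ξ v) = _
    rw [if_pos h]
  or ξ v := by
    change (if θ ≤ (Finset.univ.filter fun a => ξ (wnb v a) = ξ v + 1).card then ξ v + 1 else ξ v) = _
      ∨ (if θ ≤ (Finset.univ.filter fun a => ξ (wnb v a) = ξ v + 1).card then ξ v + 1 else ξ v) = _
    split_ifs <;> simp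

theorem adv_ghm (hd : 1 ≤ d) (θ : ℕ) : Adv θ (ghmL (wordsLab d hd) κ θ) where
  adv ξ v h := by
    change (if ξ v ≠ 0 ∨ θ ≤ (Finset.univ.filter fun a => ξ (wnb v a) = 1).card
      then ξ v + 1 else 0) = _
    by_cases h0 : ξ v = 0
    · rw [h0, zero_add] at h
      rw [if_pos (Or.inr h)]
    · rw [if_pos (Or.inl h0)]
  or ξ v := by
    change (if ξ v ≠ 0 ∨ θ ≤ (Finset.univ.filter fun a => ξ (wnb v a) = 1).card
      then ξ v + 1 else 0) = _ ∨ (if ξ v ≠ 0 ∨ θ ≤ (Finset.univ.filter fun a => ξ (wnb v a) = 1).card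
      then ξ v + 1 else 0) = _
    by_cases h0 : ξ v = 0
    · by_cases h : θ ≤ (Finset.univ.filter fun a => ξ (wnb v a) = 1).card
      · right; rw [if_pos (Or.inr h)]
      · left; rw [if_neg (by tauto), h0]
    · right; rw [if_pos (Or.inl h0)]

lemma cnt_le_card {V J : Type*} [Fintype J] {s : Finset J} {A : J → Set (V → Fin κ)}
    {ω : V → Fin κ} {p : J → Prop} [DecidablePred p] (h : ∀ j ∈ s, ω ∈ A j → p j) :
    cnt s A ω ≤ (Finset.univ.filter p).card := by
  classical
  unfold cnt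
  refine Finset.card_le_card fun a ha => ?_
  obtain ⟨ha1, ha2⟩ := Finset.mem_filter.1 ha
  exact Finset.mem_filter.2 ⟨Finset.mem_univ _, h a ha1 ha2⟩

/-- `v` is good to depth `k`: at least `θ` children have the next colour and are good to depth
`k - 1`. -/
def gd (θ : ℕ) : ℕ → Vert d → Set (Vert d → Fin κ)
  | 0, _ => univ
  | k + 1, v => {ω | θ ≤ cnt (ch v) (fun a => {ω' | ω' (wnb v a) = ω v + 1 ∧ ω' ∈ gd θ k (wnb v a)}) ω}

/-- at least `m` children are in the set of the previous level; level `0`: good to depth `N` -/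
def hd' (θ m N : ℕ) : ℕ → Vert d → Set (Vert d → Fin κ)
  | 0, v => gd θ N v
  | k + 1, v => {ω | m ≤ cnt (ch v) (fun a => hd' θ m N k (wnb v a)) ω}

theorem gd_adv {θ : ℕ} {F : (Vert d → Fin κ) → Vert d → Fin κ} (hF : Adv θ F)
    (ω : Vert d → Fin κ) (t : ℕ) : ∀ (k : ℕ) (v : Vert d), t ≤ k → ω ∈ gd θ k v →
      F^[t] ω v = ω v + (Fin.ofNat κ t) := by
  classical
  induction t with
  | zero =>
    intro k v _ _
    have : (Fin.ofNat κ 0 : Fin κ) = 0 := by ext; simp
    rw [this, add_zero]; rfl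
  | succ t ih =>
    intro k v hk hv
    obtain ⟨k, rfl⟩ : ∃ k', k = k' + 1 := ⟨k - 1, by omega⟩
    have hofn : (Fin.ofNat κ (t + 1) : Fin κ) = Fin.ofNat κ t + 1 := by
      ext
      simp [Fin.val_add, Nat.add_mod]
    have hself : F^[t] ω v = ω v + Fin.ofNat κ t := by
      rcases Nat.eq_zero_or_pos t with h0 | h0
      · subst h0
        have : (Fin.ofNat κ 0 : Fin κ) = 0 := by ext; simp
        rw [this, add_zero]; rfl
      · exact ih (k + 1) v (by omega) hv
    rw [Function.iterate_succ_apply', hF.adv, hself, hofn, add_assoc]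
    refine le_trans hv (cnt_le_card fun a ha ha' => ?_)
    obtain ⟨ha2, ha3⟩ := ha'
    rw [ih k _ (by omega) ha3, hself, ha2, add_right_comm]

/-- `v` advances in every step from some time on -/
def EvAdv (F : (Vert d → Fin κ) → Vert d → Fin κ) (ω : Vert d → Fin κ) (v : Vert d) : Prop :=
  ∃ T : ℕ, ∀ t, F^[T + t] ω v = F^[T] ω v + Fin.ofNat κ t

lemma ofNat_succ (t : ℕ) : (Fin.ofNat κ (t + 1) : Fin κ) = Fin.ofNat κ t + 1 := by
  ext
  simp [Fin.val_add, Nat.add_mod]

lemma ofNat_zero' : (Fin.ofNat κ 0 : Fin κ) = 0 := by ext; simp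

lemma ofNat_add (s t : ℕ) : (Fin.ofNat κ (s + t) : Fin κ) = Fin.ofNat κ s + Fin.ofNat κ t := by
  ext
  simp [Fin.val_add, Nat.add_mod]

lemma evAdv_of_steps {F : (Vert d → Fin κ) → Vert d → Fin κ} {ω : Vert d → Fin κ} {v : Vert d}
    {T : ℕ} (h : ∀ t, T ≤ t → F^[t + 1] ω v = F^[t] ω v + 1) : EvAdv F ω v := by
  refine ⟨T, fun t => ?_⟩
  induction t with
  | zero => rw [ofNat_zero', add_zero, add_zero]
  | succ t ih =>
    rw [← add_assoc, h (T + t) (by omega), ih, ofNat_succ, add_assoc]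

lemma EvAdv.shift {F : (Vert d → Fin κ) → Vert d → Fin κ} {ω : Vert d → Fin κ} {v : Vert d}
    {T : ℕ} (h : ∀ t, F^[T + t] ω v = F^[T] ω v + Fin.ofNat κ t) {T' : ℕ} (hT : T ≤ T') (t : ℕ) :
    F^[T' + t] ω v = F^[T'] ω v + Fin.ofNat κ t := by
  obtain ⟨s, rfl⟩ := Nat.exists_eq_add_of_le hT
  rw [h s, add_assoc T s t, h (s + t), ofNat_add, add_assoc]

/-- If at least `θ` children advance in phase for ever, then the vertex advances for ever. -/
theorem lock {θ : ℕ} {F : (Vert d → Fin κ) → Vert d → Fin κ} (hF : Adv θ F)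
    {ω : Vert d → Fin κ} {v : Vert d} {T : ℕ} {s : Finset (Fin (d + 1))} {c : Fin κ}
    (hs : θ ≤ s.card) (h : ∀ a ∈ s, ∀ t, F^[T + t] ω (wnb v a) = c + Fin.ofNat κ t) :
    EvAdv F ω v := by
  classical
  -- in phase at one time implies advancing for ever
  have key : ∀ t, F^[T + t] ω v + 1 = c + Fin.ofNat κ t → EvAdv F ω v := by
    intro t ht
    have h1 : ∀ r, F^[T + t + r] ω v + 1 = c + Fin.ofNat κ (t + r) ∧
        F^[T + t + r + 1] ω v = F^[T + t + r] ω v + 1 := by
      intro r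
      have step : ∀ r, F^[T + t + r] ω v + 1 = c + Fin.ofNat κ (t + r) →
          F^[T + t + r + 1] ω v = F^[T + t + r] ω v + 1 := by
        intro r hr
        rw [Function.iterate_succ_apply', hF.adv]
        refine hs.trans (Finset.card_le_card fun a ha => ?_)
        rw [Finset.mem_filter]
        refine ⟨Finset.mem_univ _, ?_⟩
        rw [hr, add_assoc T t r, h a ha]
      induction r with
      | zero => exact ⟨ht, step 0 ht⟩
      | succ r ih =>
        have h2 : F^[T + t + (r + 1)] ω v + 1 = c + Fin.ofNat κ (t + (r + 1)) := by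
          rw [← add_assoc, ih.2, ih.1, ← add_assoc, ofNat_succ, add_assoc]
        exact ⟨h2, step _ h2⟩
    refine evAdv_of_steps (T := T + t) fun r hr => ?_
    obtain ⟨r', rfl⟩ := Nat.exists_eq_add_of_le hr
    exact (h1 r').2
  by_contra hne
  have hD : ∀ t, c + Fin.ofNat κ t - (F^[T + t] ω v + 1) ≠ 0 := by
    intro t h0
    exact hne (key t (sub_eq_zero.1 h0).symm)
  set D : ℕ → Fin κ := fun t => c + Fin.ofNat κ t - (F^[T + t] ω v + 1) with hDdef
  have hstop : ∀ t, ∃ r, t ≤ r ∧ F^[T + r + 1] ω v = F^[T + r] ω v := by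
    intro t
    by_contra hcon
    push Not at hcon
    refine hne (evAdv_of_steps (T := T + t) fun r hr => ?_)
    obtain ⟨r', rfl⟩ := Nat.exists_eq_add_of_le hr
    have h3 := hcon (t + r') (by omega)
    rw [← add_assoc] at h3
    rcases hF.or (F^[T + t + r'] ω) v with h4 | h4
    · rw [Function.iterate_succ_apply'] at h3
      exact absurd h4 h3
    · rw [Function.iterate_succ_apply']
      exact h4
  have hstay : ∀ t, F^[T + t + 1] ω v = F^[T + t] ω v → D (t + 1) = D t + 1 := by
    intro t ht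
    simp only [hDdef]
    rw [← add_assoc, ht, ofNat_succ]
    abel
  have hmove : ∀ t, F^[T + t + 1] ω v = F^[T + t] ω v + 1 → D (t + 1) = D t := by
    intro t ht
    simp only [hDdef]
    rw [← add_assoc, ht, ofNat_succ]
    abel
  have hval : ∀ x : Fin κ, x + 1 ≠ 0 → (x + 1).val = x.val + 1 := by
    intro x hx
    have hx1 := x.2
    rw [Fin.val_add]
    by_cases hκ : κ = 1
    · subst hκ
      exact absurd (Subsingleton.elim _ _) hx
    · have h1 : ((1 : Fin κ) : ℕ) = 1 := by
        rw [Fin.val_one']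
        exact Nat.mod_eq_of_lt (by omega)
      rw [h1]
      by_cases h2 : x.val + 1 < κ
      · exact Nat.mod_eq_of_lt h2
      · exfalso
        apply hx
        ext
        rw [Fin.val_add, h1]
        have : x.val + 1 = κ := by omega
        rw [this]
        simp
  have hmono1 : ∀ t, (D t).val ≤ (D (t + 1)).val := by
    intro t
    rcases hF.or (F^[T + t] ω) v with h4 | h4
    · rw [← Function.iterate_succ_apply' F] at h4
      have h5 := hstay t h4
      have h6 := hD (t + 1)
      change D (t + 1) ≠ 0 at h6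
      rw [h5] at h6 ⊢
      rw [hval _ h6]
      omega
    · rw [← Function.iterate_succ_apply' F] at h4
      rw [hmove t h4]
  have hmono : Monotone fun t => (D t).val := monotone_nat_of_le_succ hmono1
  have hall : ∀ j : ℕ, ∃ t, j ≤ (D t).val := by
    intro j
    induction j with
    | zero => exact ⟨0, Nat.zero_le _⟩
    | succ j ih =>
      obtain ⟨t, ht⟩ := ih
      obtain ⟨r, hr, hr2⟩ := hstop t
      refine ⟨r + 1, ?_⟩
      have h5 := hstay r hr2
      have h6 := hD (r + 1)
      change D (r + 1) ≠ 0 at h6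
      rw [h5] at h6 ⊢
      rw [hval _ h6]
      have h7 := hmono hr
      simp only at h7
      omega
  obtain ⟨t, ht⟩ := hall κ
  have := (D t).2
  omega

/-- If more than `κ (θ - 1)` children advance for ever, so does the vertex. -/
theorem evAdv_step {θ : ℕ} {F : (Vert d → Fin κ) → Vert d → Fin κ} (hF : Adv θ F)
    {ω : Vert d → Fin κ} {v : Vert d} {s : Finset (Fin (d + 1))}
    (hs : κ * (θ - 1) < s.card) (h : ∀ a ∈ s, EvAdv F ω (wnb v a)) : EvAdv F ω v := by
  classical
  choose! T hT using h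
  set T0 := s.sup T with hT0
  have h1 : ∀ a ∈ s, ∀ t, F^[T0 + t] ω (wnb v a) = F^[T0] ω (wnb v a) + Fin.ofNat κ t :=
    fun a ha t => EvAdv.shift (hT a ha) (Finset.le_sup ha) t
  have h2 : (Finset.univ : Finset (Fin κ)).card * (θ - 1) < s.card := by
    simpa using hs
  obtain ⟨c, -, hc⟩ := Finset.exists_lt_card_fiber_of_mul_lt_card_of_maps_to
    (s := s) (t := Finset.univ) (f := fun a => F^[T0] ω (wnb v a)) (fun a _ => Finset.mem_univ _) h2
  refine lock hF (T := T0) (c := c) (s := s.filter fun a => F^[T0] ω (wnb v a) = c) (by omega) ?_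
  intro a ha t
  obtain ⟨ha1, ha2⟩ := Finset.mem_filter.1 ha
  rw [h1 a ha1 t, ha2]

/-- A vertex which is at level `k` for infinitely many depths `N` advances for ever. -/
theorem evAdv_of_frequently {θ : ℕ} {F : (Vert d → Fin κ) → Vert d → Fin κ} (hF : Adv θ F)
    {ω : Vert d → Fin κ} (k : ℕ) : ∀ v : Vert d,
    (∃ᶠ N in Filter.atTop, ω ∈ hd' θ (κ * (θ - 1) + 1) N k v) → EvAdv F ω v := by
  classical
  induction k with
  | zero =>
    intro v hv
    refine ⟨0, fun t => ?_⟩
    obtain ⟨N, hN, hN2⟩ := Filter.frequently_atTop.1 hv t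
    rw [zero_add]
    exact gd_adv hF ω t N v hN hN2
  | succ k ih =>
    intro v hv
    set C : ℕ → Finset (Fin (d + 1)) := fun N =>
      (ch v).filter fun a => ω ∈ hd' θ (κ * (θ - 1) + 1) N k (wnb v a) with hC
    have h1 : ∃ᶠ N in Filter.atTop, ∃ s : Finset (Fin (d + 1)),
        s ∈ (Finset.univ : Finset (Finset (Fin (d + 1)))) ∧ (C N = s ∧ κ * (θ - 1) + 1 ≤ s.card) := by
      refine hv.mono fun N hN => ⟨C N, Finset.mem_univ _, rfl, hN⟩
    have h2 : ∃ s : Finset (Fin (d + 1)), ∃ᶠ N in Filter.atTop,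
        (C N = s ∧ κ * (θ - 1) + 1 ≤ s.card) := by
      by_contra hcon
      push Not at hcon
      have h3 : ∀ s : Finset (Fin (d + 1)), ∀ᶠ N in Filter.atTop,
          ¬ (C N = s ∧ κ * (θ - 1) + 1 ≤ s.card) := fun s => by
        refine (hcon s).mono fun N hN hN2 => ?_
        have := hN hN2.1
        have := hN2.2
        omega
      have h4 := (Filter.eventually_all (l := (Filter.atTop : Filter ℕ))).2 h3
      obtain ⟨N, hN1, hN2⟩ := (h1.and_eventually h4).exists
      obtain ⟨s, -, hs⟩ := hN1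
      exact hN2 s hs
    obtain ⟨s, hs⟩ := h2
    obtain ⟨N0, hN0⟩ := hs.exists
    refine evAdv_step hF (s := s) (by omega) fun a ha => ih _ ?_
    refine hs.mono fun N hN => ?_
    have : a ∈ C N := by rw [hN.1]; exact ha
    exact (Finset.mem_filter.1 this).2

theorem EvAdv.fluct (hκ : 2 ≤ κ) {F : (Vert d → Fin κ) → Vert d → Fin κ}
    {ω : Vert d → Fin κ} {v : Vert d} (h : EvAdv F ω v) : Fluct F ω v := by
  obtain ⟨T, hT⟩ := h
  unfold Fluct
  refine Set.infinite_of_forall_exists_gt fun n => ⟨T + (n + 1), ?_, by omega⟩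
  rw [mem_ofPred_eq, add_assoc, hT, hT, ofNat_succ (n + 1), ← add_assoc]
  intro h0
  have h1 : (1 : Fin κ) = 0 := by simpa using h0
  have h2 := congrArg Fin.val h1
  rw [Fin.val_one', Nat.mod_eq_of_lt (by omega)] at h2
  simp at h2

end Pool.Agent.Helper99.CA
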