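import Pool.Agent.Helper99.CA.GDet

/-!
# Greenberg-Hastings: the recursion when `κ (θ - 1) ≥ d`
-/

open MeasureTheory Set ProbabilityTheory
open Pool.Agent.Helper94.CCA

namespace Pool.Agent.Helper99.CA

variable {d κ : ℕ} [NeZero κ]

/-- The tail `P(Bin(D, p) ≥ m)` of the binomial law. -/
noncomputable def bt : ℕ → ℕ → ℝ → ℝ
  | _, 0, _ => 1
  | 0, _ + 1, _ => 0
  | D + 1, m + 1, p => p * bt D m p + (1 - p) * bt D (m + 1) p

lemma bt_zero_right (D : ℕ) (p : ℝ) : bt D 0 p = 1 := by cases D <;> rfl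

lemma bt_nonneg {p : ℝ} (hp0 : 0 ≤ p) (hp1 : p ≤ 1) (D : ℕ) : ∀ m, 0 ≤ bt D m p := by
  induction D with
  | zero => intro m; cases m <;> simp [bt]
  | succ D ih =>
    intro m
    cases m with
    | zero => simp [bt]
    | succ m =>
      have h1 := ih m
      have h2 := ih (m + 1)
      have h3 : 0 ≤ 1 - p := by linarith
      change 0 ≤ p * bt D m p + (1 - p) * bt D (m + 1) p
      positivity

lemma bt_anti {p : ℝ} (hp0 : 0 ≤ p) (hp1 : p ≤ 1) (D : ℕ) : ∀ m, bt D (m + 1) p ≤ bt D m p := by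
  induction D with
  | zero => intro m; cases m <;> simp [bt]
  | succ D ih =>
    intro m
    cases m with
    | zero =>
      change p * bt D 0 p + (1 - p) * bt D (0 + 1) p ≤ 1
      have h1 := ih 0
      rw [bt_zero_right] at h1 ⊢
      have h3 : 0 ≤ 1 - p := by linarith
      nlinarith
    | succ m =>
      change p * bt D (m + 1) p + (1 - p) * bt D (m + 1 + 1) p ≤
        p * bt D m p + (1 - p) * bt D (m + 1) p
      have h1 := ih m
      have h2 := ih (m + 1)
      have h3 : 0 ≤ 1 - p := by linarith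
      nlinarith

lemma bt_mono_succ {p : ℝ} (hp0 : 0 ≤ p) (hp1 : p ≤ 1) (D : ℕ) (m : ℕ) :
    bt D m p ≤ bt (D + 1) m p := by
  cases m with
  | zero => rw [bt_zero_right, bt_zero_right]
  | succ m =>
    change _ ≤ p * bt D m p + (1 - p) * bt D (m + 1) p
    have h1 := bt_anti hp0 hp1 D m
    nlinarith

lemma bt_mono {p : ℝ} (hp0 : 0 ≤ p) (hp1 : p ≤ 1) {D D' : ℕ} (h : D ≤ D') (m : ℕ) :
    bt D m p ≤ bt D' m p := by
  induction D', h using Nat.le_induction with
  | base => exact le_rfl
  | succ D' _ ih => exact ih.trans (bt_mono_succ hp0 hp1 D' m)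

/-- The law of the number of independent events that occur, all of the same probability. -/
theorem law_cnt {V J : Type*} (s : Finset J) (K : J → Finset V)
    (hK : (s : Set J).PairwiseDisjoint K) (A : J → Set (V → Fin κ))
    (hA : ∀ j ∈ s, Dep (K j) (fun ω => ω ∈ A j)) {p : ℝ} (hp : ∀ j ∈ s, (law V κ).real (A j) = p)
    (m : ℕ) : (law V κ).real {ω | m ≤ cnt s A ω} = bt s.card m p := by
  classical
  induction s using Finset.induction_on generalizing m with
  | empty =>
    cases m with
    | zero => simp [cnt, bt]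
    | succ m => simp [cnt, bt]
  | insert a s ha ih =>
    have hK' : (s : Set J).PairwiseDisjoint K := hK.subset (by simp)
    have hA' : ∀ j ∈ s, Dep (K j) (fun ω => ω ∈ A j) := fun j hj =>
      hA j (Finset.mem_insert_of_mem hj)
    have hp' : ∀ j ∈ s, (law V κ).real (A j) = p := fun j hj => hp j (Finset.mem_insert_of_mem hj)
    have hdis : Disjoint (K a) (s.biUnion K) := by
      rw [Finset.disjoint_biUnion_right]
      intro j hj
      exact hK (by simp) (by simp [hj]) (fun h => ha (h ▸ hj))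
    have hAa := hA a (Finset.mem_insert_self a s)
    have hpa := hp a (Finset.mem_insert_self a s)
    have hcnt : ∀ ω : V → Fin κ, cnt (insert a s) A ω = cnt s A ω + if ω ∈ A a then 1 else 0 := by
      intro ω
      unfold cnt
      rw [Finset.filter_insert]
      split_ifs with h
      · rw [Finset.card_insert_of_notMem (by simp [ha])]
      · rfl
    rw [Finset.card_insert_of_notMem ha]
    cases m with
    | zero =>
      rw [bt_zero_right]
      simp
    | succ m =>
      have h1 : {ω : V → Fin κ | m + 1 ≤ cnt (insert a s) A ω} =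
          (A a ∩ {ω | m ≤ cnt s A ω}) ∪ ((A a)ᶜ ∩ {ω | m + 1 ≤ cnt s A ω}) := by
        ext ω
        simp only [mem_ofPred_eq, hcnt, mem_union, mem_inter_iff, mem_compl_iff]
        by_cases h : ω ∈ A a
        · simp [h]
        · simp [h]
      have hm : MeasurableSet ((A a)ᶜ ∩ {ω : V → Fin κ | m + 1 ≤ cnt s A ω}) :=
        hAa.measurableSet.compl.inter
          (((dep_cnt s K A hA').comp (fun n => m + 1 ≤ n)).measurableSet)
      rw [h1, measureReal_union (by
        rw [Set.disjoint_left]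
        rintro ω ⟨h, -⟩ ⟨h', -⟩
        exact h' h) hm]
      rw [law_inter_of_dep hdis (A := A a) (B := {ω | m ≤ cnt s A ω}) hAa
          ((dep_cnt s K A hA').comp (fun n => m ≤ n)),
        law_inter_of_dep hdis (A := (A a)ᶜ) (B := {ω | m + 1 ≤ cnt s A ω})
          (hAa.comp (fun q : Prop => ¬ q))
          ((dep_cnt s K A hA').comp (fun n => m + 1 ≤ n)), ih hK' hA' hp' m,
        ih hK' hA' hp' (m + 1), probReal_compl_eq_one_sub hAa.measurableSet, hpa]
      rfl

/-- The first step of the recursion. -/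
lemma first_step {θ : ℕ} (v : Vert d) (D : ℕ) (hD : (ch v).card ≤ D) :
    (law (Vert d) κ).real {ω | θ ≤ cnt (ch v) (fun a => wt θ 0 (wnb v a)) ω} ≤
      bt D θ (1 / κ) := by
  have hκ1 : (1 : ℝ) ≤ κ := by exact_mod_cast Nat.pos_of_ne_zero (NeZero.ne κ)
  obtain ⟨K, h1, h2, -, -⟩ := exists_sep v (fun a ω => ω ∈ wt (κ := κ) θ 0 (wnb v a))
    (fun a _ => ldep_wt θ 0 _)
  rw [law_cnt (ch v) K h1 (fun a => wt θ 0 (wnb v a)) h2 (p := 1 / κ)
    (fun j _ => law_coord_eq (wnb v j) 1)]
  exact bt_mono (by positivity) (by rw [div_le_one (by linarith)]; exact hκ1) hD θ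

/-- The root fixates almost surely under the Greenberg-Hastings dynamics if `κ (θ - 1) ≥ d`. -/
theorem ghm_fix_of_half {θ : ℕ} (hκ : 3 ≤ κ) (hd1 : 1 ≤ d) (hθ : 2 ≤ θ) (hd : d ≤ κ * (θ - 1))
    (hhalf : bt (κ * (θ - 1)) θ (1 / κ) ≤ 1 / 2) :
    (law (Vert d) κ) {ω | Fluct (ghmL (wordsLab d hd1) κ θ) ω root} = 0 := by
  obtain ⟨n, rfl⟩ : ∃ n, θ = n + 1 := ⟨θ - 1, by omega⟩
  rw [add_tsub_cancel_right] at hd hhalf
  have hn : 1 ≤ n := by omega
  have hκ0 : (0 : ℝ) < κ := by exact_mod_cast (by omega : 0 < κ)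
  have hκ3 : (3 : ℝ) ≤ κ := by exact_mod_cast hκ
  have hn1 : (1 : ℝ) ≤ n := by exact_mod_cast hn
  have hdR : (d : ℝ) ≤ κ * n := by exact_mod_cast hd
  -- the first two levels
  have h0 : ∀ v : Vert d, κ * (law (Vert d) κ).real (wt (n + 1) 0 v) = 1 := by
    intro v
    have : (law (Vert d) κ).real (wt (n + 1) 0 v) = 1 / κ := law_coord_eq v 1
    rw [this]; field_simp
  have h1 : ∀ v : Vert d, v ≠ root → κ * (law (Vert d) κ).real (wt (n + 1) 1 v) ≤ 1 / 2 := by
    intro v hv
    have h2 := wt_step (κ := κ) (n + 1) 0 v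
    have h3 := first_step (κ := κ) (θ := n + 1) v (κ * n) (by rw [card_ch hv]; exact hd)
    simp only [Nat.cast_zero, zero_add, one_mul] at h2
    linarith
  -- the general step
  have hstep : ∀ (t : ℕ) (c : ℝ), 0 ≤ c →
      (∀ v : Vert d, v ≠ root → κ * (law (Vert d) κ).real (wt (n + 1) t v) ≤ c) → ∀ r : ℕ,
      ∀ v : Vert d, v ≠ root →
      κ * (law (Vert d) κ).real (wt (n + 1) (t + 1) v) * ((n + 1).choose r : ℝ) ≤
        (t + 1) * ((n * c) ^ r / r.factorial) := by
    intro t c hc hv r v hvr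
    have h2 := wt_step (κ := κ) (n + 1) t v
    have h3 := tree_cnt_ge v (fun a => wt (κ := κ) (n + 1) t (wnb v a))
      (fun a _ => ldep_wt (n + 1) t _) (p := c / κ) (fun a ha => by
        rw [le_div_iff₀ hκ0, mul_comm]
        exact hv _ (child_ne_root ha)) (n + 1) r
    rw [card_ch hvr] at h3
    have h4 : ((d.choose r : ℕ) : ℝ) * (c / κ) ^ r ≤ (n * c) ^ r / r.factorial := by
      have h5 : ((d.choose r : ℕ) : ℝ) ≤ (d : ℝ) ^ r / (r.factorial : ℝ) :=
        Nat.choose_le_pow_div r d
      calc ((d.choose r : ℕ) : ℝ) * (c / κ) ^ r ≤ ((d : ℝ) ^ r / (r.factorial : ℝ)) * (c / κ) ^ r := by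
            gcongr
        _ ≤ ((κ * n : ℝ) ^ r / (r.factorial : ℝ)) * (c / κ) ^ r := by gcongr
        _ = (κ * n * (c / κ)) ^ r / r.factorial := by rw [mul_pow (κ * n : ℝ)]; ring
        _ = (n * c) ^ r / r.factorial := by
            congr 2
            field_simp
    calc κ * (law (Vert d) κ).real (wt (n + 1) (t + 1) v) * ((n + 1).choose r : ℝ)
        ≤ ((t + 1 : ℝ) * (law (Vert d) κ).real
          {ω | n + 1 ≤ cnt (ch v) (fun a => wt (n + 1) t (wnb v a)) ω}) *
            ((n + 1).choose r : ℝ) := by gcongr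
      _ = (t + 1 : ℝ) * ((law (Vert d) κ).real
          {ω | n + 1 ≤ cnt (ch v) (fun a => wt (n + 1) t (wnb v a)) ω} *
            ((n + 1).choose r : ℝ)) := by ring
      _ ≤ (t + 1 : ℝ) * ((n * c) ^ r / r.factorial) := by
          gcongr
          exact h3.trans h4
  -- a geometric bound
  have hgeo : ∃ C : ℝ, ∀ t, ∀ v : Vert d, v ≠ root →
      κ * (law (Vert d) κ).real (wt (n + 1) t v) ≤ C * (1 / 2) ^ t := by
    have hpos : ∀ t (v : Vert d), 0 ≤ κ * (law (Vert d) κ).real (wt (n + 1) t v) := by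
      intro t v
      have : 0 ≤ (law (Vert d) κ).real (wt (n + 1) t v) := measureReal_nonneg
      positivity
    rcases Nat.eq_or_lt_of_le hn with h | h
    · -- `n = 1`
      subst h
      have key : ∀ t, ∀ v : Vert d, v ≠ root →
          κ * (law (Vert d) κ).real (wt (1 + 1) (t + 1) v) ≤ (1 / 2) ^ (t + 1) := by
        intro t
        induction t with
        | zero => intro v hv; simpa using h1 v hv
        | succ t ih =>
          intro v hv
          have h5 := hstep (t + 1) ((1 / 2) ^ (t + 1)) (by positivity) ih 2 v hv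
          norm_num at h5
          have h6 : ((t : ℝ) + 1 + 1) * (1 / 2) ^ (t + 1) ≤ 1 := by
            have h7 : t + 2 ≤ 2 ^ (t + 1) := by
              have := Nat.lt_two_pow_self (n := t + 1)
              omega
            have h8 : ((t : ℝ) + 1 + 1) ≤ 2 ^ (t + 1) := by
              have : ((t + 2 : ℕ) : ℝ) ≤ ((2 ^ (t + 1) : ℕ) : ℝ) := Nat.cast_le.2 h7
              push_cast at this
              linarith
            rw [one_div, inv_pow, ← div_eq_mul_inv, div_le_one (by positivity)]
            exact h8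
          have h9 : (0 : ℝ) < (1 / 2) ^ (t + 1) := by positivity
          have h10 : κ * (law (Vert d) κ).real (wt 2 (t + 1 + 1) v) ≤
              ((t : ℝ) + 1 + 1) * (((1 / 2) ^ (t + 1)) ^ 2 / 2) := by
            norm_num
            convert h5 using 2
          calc κ * (law (Vert d) κ).real (wt (1 + 1) (t + 1 + 1) v)
              ≤ ((t : ℝ) + 1 + 1) * (((1 / 2) ^ (t + 1)) ^ 2 / 2) := h10
            _ = (((t : ℝ) + 1 + 1) * (1 / 2) ^ (t + 1)) * ((1 / 2) ^ (t + 1) / 2) := by ring
            _ ≤ 1 * ((1 / 2) ^ (t + 1) / 2) := by gcongr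
            _ = (1 / 2) ^ (t + 1 + 1) := by ring
      refine ⟨1, fun t v hv => ?_⟩
      cases t with
      | zero => rw [h0 v]; norm_num
      | succ t => simpa using key t v hv
    · -- `n ≥ 2`
      have hn2 : (2 : ℝ) ≤ n := by exact_mod_cast h
      have hstep3 : ∀ (t : ℕ) (c : ℝ), 0 ≤ c →
          (∀ v : Vert d, v ≠ root → κ * (law (Vert d) κ).real (wt (n + 1) t v) ≤ c) →
          ∀ v : Vert d, v ≠ root →
          κ * (law (Vert d) κ).real (wt (n + 1) (t + 1) v) ≤ (t + 1) * (4 / 3 * c ^ 3) := by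
        intro t c hc hv v hvr
        have h5 := hstep t c hc hv 3 v hvr
        have h6 : (((n + 1).choose 3 : ℕ) : ℝ) = (n + 1) * n * (n - 1) / 6 := by
          obtain ⟨m, rfl⟩ : ∃ m, n = m + 2 := ⟨n - 2, by omega⟩
          have h7 := Nat.descFactorial_eq_factorial_mul_choose (m + 2 + 1) 3
          have h8 : (m + 2 + 1).descFactorial 3 = (m + 3) * (m + 2) * (m + 1) := by
            simp [Nat.descFactorial]; ring
          rw [h8] at h7
          have h9 : (((m + 3) * (m + 2) * (m + 1) : ℕ) : ℝ) =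
              ((Nat.factorial 3 * (m + 2 + 1).choose 3 : ℕ) : ℝ) := by rw [h7]
          have h10 : (Nat.factorial 3 : ℕ) = 6 := rfl
          rw [h10] at h9
          push_cast at h9 ⊢
          linarith
        rw [h6] at h5
        have h7 : ((Nat.factorial 3 : ℕ) : ℝ) = 6 := by norm_num [Nat.factorial]
        rw [h7] at h5
        set q := κ * (law (Vert d) κ).real (wt (n + 1) (t + 1) v) with hq
        have hq0 : 0 ≤ q := hpos _ _
        have h8 : 0 < (n + 1 : ℝ) * n * (n - 1) / 6 := by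
          have : (0 : ℝ) < n - 1 := by linarith
          positivity
        have h9 : (t + 1) * ((n * c) ^ 3 / 6) ≤ ((t + 1) * (4 / 3 * c ^ 3)) * ((n + 1 : ℝ) * n * (n - 1) / 6) := by
          have h10 : (n : ℝ) ^ 3 ≤ 4 / 3 * ((n + 1) * n * (n - 1)) := by
            nlinarith [mul_nonneg (by linarith : (0 : ℝ) ≤ n) (by nlinarith : (0 : ℝ) ≤ (n : ℝ) ^ 2 - 4)]
          have h11 : 0 ≤ (t + 1 : ℝ) * c ^ 3 / 6 := by positivity
          calc (t + 1) * ((n * c) ^ 3 / 6) = ((t + 1 : ℝ) * c ^ 3 / 6) * n ^ 3 := by ring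
            _ ≤ ((t + 1 : ℝ) * c ^ 3 / 6) * (4 / 3 * ((n + 1) * n * (n - 1))) := by gcongr
            _ = _ := by ring
        exact le_of_mul_le_mul_right (h5.trans h9) h8
      have k2 : ∀ v : Vert d, v ≠ root → κ * (law (Vert d) κ).real (wt (n + 1) 2 v) ≤ 1 / 3 := by
        intro v hv
        have := hstep3 1 (1 / 2) (by norm_num) h1 v hv
        norm_num at this ⊢
        linarith
      have k3 : ∀ v : Vert d, v ≠ root → κ * (law (Vert d) κ).real (wt (n + 1) 3 v) ≤ 4 / 27 := by
        intro v hv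
        have := hstep3 2 (1 / 3) (by norm_num) k2 v hv
        norm_num at this ⊢
        linarith
      have key : ∀ t, ∀ v : Vert d, v ≠ root →
          κ * (law (Vert d) κ).real (wt (n + 1) (t + 3) v) ≤ 4 / 27 * (1 / 2) ^ t := by
        intro t
        induction t with
        | zero => intro v hv; simpa using k3 v hv
        | succ t ih =>
          intro v hv
          have h5 := hstep3 (t + 3) (4 / 27 * (1 / 2) ^ t) (by positivity) ih v hv
          have h6 : ((t : ℝ) + 4) * ((1 / 2) ^ t) ^ 2 ≤ 4 := by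
            have h7 : t + 4 ≤ 4 * 4 ^ t := by
              have := Nat.lt_pow_self (n := t) (a := 4) (by norm_num)
              have h71 : 1 ≤ 4 ^ t := Nat.one_le_pow _ _ (by norm_num)
              omega
            have h8 : ((t : ℝ) + 4) ≤ 4 * 4 ^ t := by exact_mod_cast h7
            have h9 : ((1 / 2 : ℝ) ^ t) ^ 2 = (4 ^ t)⁻¹ := by
              rw [← pow_mul, mul_comm t 2, pow_mul, show ((1 / 2 : ℝ) ^ 2) = 4⁻¹ by norm_num, inv_pow]
            rw [h9, ← div_eq_mul_inv, div_le_iff₀ (by positivity)]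
            exact h8
          have h10 : (0 : ℝ) < (1 / 2) ^ t := by positivity
          calc κ * (law (Vert d) κ).real (wt (n + 1) (t + 1 + 3) v)
              ≤ ((t + 3 : ℕ) + 1) * (4 / 3 * (4 / 27 * (1 / 2) ^ t) ^ 3) := h5
            _ = (((t : ℝ) + 4) * ((1 / 2) ^ t) ^ 2) * (4 / 3 * (4 / 27) ^ 3 * (1 / 2) ^ t) := by
                push_cast; ring
            _ ≤ 4 * (4 / 3 * (4 / 27) ^ 3 * (1 / 2) ^ t) := by gcongr
            _ ≤ 4 / 27 * (1 / 2) ^ (t + 1) := by
                rw [pow_succ (1 / 2 : ℝ) t, show (4 / 27 : ℝ) ^ 3 = 64 / 19683 by norm_num]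
                linarith
      refine ⟨2, fun t v hv => ?_⟩
      match t with
      | 0 => rw [h0 v]; norm_num
      | 1 => have := h1 v hv; norm_num at this ⊢; linarith
      | 2 => have := k2 v hv; norm_num at this ⊢; linarith
      | t + 3 =>
        have h5 := key t v hv
        have h10 : (0 : ℝ) < (1 / 2) ^ t := by positivity
        calc _ ≤ _ := h5
          _ ≤ 2 * (1 / 2) ^ (t + 3) := by
            rw [pow_add, show (1 / 2 : ℝ) ^ 3 = 1 / 8 by norm_num]
            linarith
  obtain ⟨C, hC⟩ := hgeo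
  refine ghm_fix_of_bound hκ hd1 (by omega) (fun t => C * (1 / 2) ^ t) (fun t v hv => ?_)
    ((summable_geometric_of_lt_one (by norm_num) (by norm_num)).mul_left C)
  have h5 := hC t v hv
  have h6 : (law (Vert d) κ).real (wt (n + 1) t v) ≤
      κ * (law (Vert d) κ).real (wt (n + 1) t v) := by
    have : 0 ≤ (law (Vert d) κ).real (wt (n + 1) t v) := measureReal_nonneg
    nlinarith
  exact h6.trans h5

end Pool.Agent.Helper99.CA
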