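import Pool.Agent.Helper99.CA.FNum
import Pool.Agent.Helper99.CA.GNum

/-!
# Fluctuation with the exact binomial tail; the condition `d ≥ 4 κ (θ - 1)`
-/

open MeasureTheory Set ProbabilityTheory
open Pool.Agent.Helper94.CCA

namespace Pool.Agent.Helper99.CA

variable {d κ : ℕ} [NeZero κ]

/-- Lower bound for the law of the number of independent events that occur. -/
theorem bt_le_law {V J : Type*} (s : Finset J) (K : J → Finset V)
    (hK : (s : Set J).PairwiseDisjoint K) (A : J → Set (V → Fin κ))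
    (hA : ∀ j ∈ s, Dep (K j) (fun ω => ω ∈ A j)) {p : ℝ} (hp0 : 0 ≤ p) (hp1 : p ≤ 1)
    (hp : ∀ j ∈ s, p ≤ (law V κ).real (A j))
    (m : ℕ) : bt s.card m p ≤ (law V κ).real {ω | m ≤ cnt s A ω} := by
  classical
  induction s using Finset.induction_on generalizing m with
  | empty =>
    cases m with
    | zero => simp [cnt, bt]
    | succ m => simp [cnt, bt]
  | insert a s ha ih =>
    have hK' : (s : Set J).PairwiseDisjoint K := hK.subset (by simp)
    have hA' : ∀ j ∈ s, Dep (K j) (fun ω => ω ∈ A j) := fun j hj =>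
      hA j (Finset.mem_insert_of_mem hj)
    have hp' : ∀ j ∈ s, p ≤ (law V κ).real (A j) := fun j hj => hp j (Finset.mem_insert_of_mem hj)
    have hdis : Disjoint (K a) (s.biUnion K) := by
      rw [Finset.disjoint_biUnion_right]
      intro j hj
      exact hK (by simp) (by simp [hj]) (fun h => ha (h ▸ hj))
    have hAa := hA a (Finset.mem_insert_self a s)
    have hpa := hp a (Finset.mem_insert_self a s)
    have hcnt : ∀ ω : V → Fin κ, cnt (insert a s) A ω = cnt s A ω + if ω ∈ A a then 1 else 0 := by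
      intro ω
      unfold cnt
      rw [Finset.filter_insert]
      split_ifs with h
      · rw [Finset.card_insert_of_notMem (by simp [ha])]
      · rfl
    rw [Finset.card_insert_of_notMem ha]
    cases m with
    | zero =>
      rw [bt_zero_right]
      simp
    | succ m =>
      have h1 : {ω : V → Fin κ | m + 1 ≤ cnt (insert a s) A ω} =
          (A a ∩ {ω | m ≤ cnt s A ω}) ∪ ((A a)ᶜ ∩ {ω | m + 1 ≤ cnt s A ω}) := by
        ext ω
        simp only [mem_ofPred_eq, hcnt, mem_union, mem_inter_iff, mem_compl_iff]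
        by_cases h : ω ∈ A a
        · simp [h]
        · simp [h]
      have hm : MeasurableSet ((A a)ᶜ ∩ {ω : V → Fin κ | m + 1 ≤ cnt s A ω}) :=
        hAa.measurableSet.compl.inter
          (((dep_cnt s K A hA').comp (fun n => m + 1 ≤ n)).measurableSet)
      rw [h1, measureReal_union (by
        rw [Set.disjoint_left]
        rintro ω ⟨h, -⟩ ⟨h', -⟩
        exact h' h) hm]
      rw [law_inter_of_dep hdis (A := A a) (B := {ω | m ≤ cnt s A ω}) hAa
          ((dep_cnt s K A hA').comp (fun n => m ≤ n)),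
        law_inter_of_dep hdis (A := (A a)ᶜ) (B := {ω | m + 1 ≤ cnt s A ω})
          (hAa.comp (fun q : Prop => ¬ q))
          ((dep_cnt s K A hA').comp (fun n => m + 1 ≤ n)),
        probReal_compl_eq_one_sub hAa.measurableSet]
      have h2 := ih hK' hA' hp' m
      have h3 := ih hK' hA' hp' (m + 1)
      have h4 : (law V κ).real {ω | m + 1 ≤ cnt s A ω} ≤ (law V κ).real {ω | m ≤ cnt s A ω} :=
        measureReal_mono (fun ω hω => by
          rw [mem_ofPred_eq] at hω ⊢; omega)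
      have h5 : (law V κ).real (A a) ≤ 1 := measureReal_le_one
      change p * bt s.card m p + (1 - p) * bt s.card (m + 1) p ≤ _
      have h6 : 0 ≤ 1 - p := by linarith
      calc p * bt s.card m p + (1 - p) * bt s.card (m + 1) p
          ≤ p * (law V κ).real {ω | m ≤ cnt s A ω} +
            (1 - p) * (law V κ).real {ω | m + 1 ≤ cnt s A ω} := by gcongr
        _ ≤ (law V κ).real (A a) * (law V κ).real {ω | m ≤ cnt s A ω} +
            (1 - (law V κ).real (A a)) * (law V κ).real {ω | m + 1 ≤ cnt s A ω} := by nlinarith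

/-- The probability of being good with a given colour, exact tail. -/
theorem gd_prob_exact {θ : ℕ} {g : ℝ} (hg0 : 0 ≤ g) (hg1 : g ≤ 1)
    (hN : g ≤ bt d θ (g / κ)) (k : ℕ) :
    ∀ (v : Vert d) (c : Fin κ),
      g / κ ≤ (law (Vert d) κ).real {ω | ω v = c ∧ ω ∈ gd θ k v} := by
  have hκ : (0 : ℝ) < κ := by exact_mod_cast Nat.pos_of_ne_zero (NeZero.ne κ)
  have hκ1 : (1 : ℝ) ≤ κ := by exact_mod_cast Nat.pos_of_ne_zero (NeZero.ne κ)
  have hgκ0 : 0 ≤ g / κ := by positivity
  have hgκ1 : g / κ ≤ 1 := by rw [div_le_one hκ]; linarith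
  induction k with
  | zero =>
    intro v c
    have : {ω : Vert d → Fin κ | ω v = c ∧ ω ∈ gd θ 0 v} = {ω | ω v = c} := by
      ext ω; simp [gd]
    rw [this, law_coord_eq]
    gcongr
  | succ k ih =>
    intro v c
    set A : Fin (d + 1) → Set (Vert d → Fin κ) := fun a =>
      {ω' | ω' (wnb v a) = c + 1 ∧ ω' ∈ gd θ k (wnb v a)} with hA
    have hAd : ∀ a ∈ ch v, LDep (wnb v a) (fun ω => ω ∈ A a) := fun a _ =>
      ((LDep.self (wnb v a)).prod (ldep_gd θ k (wnb v a))).comp
        (fun x : Fin κ × Prop => x.1 = c + 1 ∧ x.2)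
    have h1 : {ω : Vert d → Fin κ | ω v = c ∧ ω ∈ gd θ (k + 1) v} =
        {ω | (fun x => x = c) (ω v) ∧ (fun n => θ ≤ n) (cnt (ch v) A ω)} := by
      ext ω
      simp only [mem_ofPred_eq]
      constructor
      · rintro ⟨h, h'⟩
        refine ⟨h, ?_⟩
        subst h
        exact h'
      · rintro ⟨h, h'⟩
        refine ⟨h, ?_⟩
        subst h
        exact h'
    rw [h1, tree_self_inter v A hAd (fun x => x = c) (fun n => θ ≤ n), law_coord_eq]
    have hcard : d ≤ (ch v).card := by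
      rcases eq_root_or v with h | ⟨b, hb⟩
      · subst h
        rw [card_ch_root]; omega
      · rw [ch_eq_erase hb, Finset.card_erase_of_mem (Finset.mem_univ _)]
        simp
    obtain ⟨K, k1, k2, -, -⟩ := exists_sep v (fun a ω => ω ∈ A a) hAd
    have h2 : bt (ch v).card θ (g / κ) ≤ (law (Vert d) κ).real {ω | θ ≤ cnt (ch v) A ω} :=
      bt_le_law (ch v) K k1 A k2 hgκ0 hgκ1 (fun j _ => ih (wnb v j) (c + 1)) θ
    have h3 : g ≤ (law (Vert d) κ).real {ω | θ ≤ cnt (ch v) A ω} :=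
      hN.trans ((bt_mono hgκ0 hgκ1 hcard θ).trans h2)
    rw [div_eq_mul_one_div, mul_comm]
    gcongr

/-- Criterion for almost sure fluctuation with the exact binomial tail. -/
theorem fluct_criterion_exact {θ : ℕ} (hκ : 2 ≤ κ)
    {F : (Vert d → Fin κ) → Vert d → Fin κ} (hF : Adv θ F) {g : ℝ} (hg0 : 0 ≤ g) (hg1 : g ≤ 1)
    (hN : g ≤ bt d θ (g / κ)) {a : ℕ} (ha1 : 1 ≤ a)
    (ha : κ * (θ - 1) + a = d) (hc : (d.choose a : ℝ) * (1 - g) ^ (a - 1) ≤ 1 / 2) :
    (law (Vert d) κ) {ω | ¬ EvAdv F ω root} = 0 := by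
  have hκ' : (0 : ℝ) < κ := by exact_mod_cast Nat.pos_of_ne_zero (NeZero.ne κ)
  refine fluct_of_seed hκ hF (by linarith) (fun N v => ?_) ha1 ha hc
  have hm : MeasurableSet (gd (κ := κ) θ N v) := (ldep_gd θ N v).measurableSet
  rw [probReal_compl_eq_one_sub hm, law_split v hm]
  have h1 : ∑ c : Fin κ, (law (Vert d) κ).real {ω | ω v = c ∧ ω ∈ gd θ N v} ≥
      ∑ _c : Fin κ, g / κ :=
    Finset.sum_le_sum fun c _ => gd_prob_exact hg0 hg1 hN N v c
  rw [Finset.sum_const, Finset.card_univ, Fintype.card_fin, nsmul_eq_mul,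
    mul_div_cancel₀ _ hκ'.ne'] at h1
  linarith

lemma bt_one (D : ℕ) (p : ℝ) : bt D 1 p = 1 - (1 - p) ^ D := by
  induction D with
  | zero => simp [bt]
  | succ D ih =>
    change p * bt D 0 p + (1 - p) * bt D 1 p = _
    rw [ih, bt_zero_right, pow_succ]
    ring

lemma bt_two (D : ℕ) (p : ℝ) :
    bt (D + 1) 2 p = 1 - (1 - p) ^ D * (1 - p + (D + 1) * p) := by
  induction D with
  | zero =>
    change p * bt 0 1 p + (1 - p) * bt 0 2 p = _
    simp [bt]
  | succ D ih =>
    change p * bt (D + 1) 1 p + (1 - p) * bt (D + 1) 2 p = _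
    rw [ih, bt_one, pow_succ]
    push_cast
    ring

lemma exp_two_lb : (7.389 : ℝ) ≤ Real.exp 2 := by
  have h2 : (2.7182818283 : ℝ) < Real.exp 1 := Real.exp_one_gt_d9
  have h3 : Real.exp 2 = Real.exp 1 * Real.exp 1 := by
    rw [← Real.exp_add]; norm_num
  rw [h3]
  nlinarith

/-- The root fluctuates almost surely if `d ≥ 4 κ (θ - 1)`, for every dynamics of type `Adv`. -/
theorem fluct_four {θ : ℕ} (hκ : 3 ≤ κ) (hθ : 2 ≤ θ) (hd : 4 * (κ * (θ - 1)) ≤ d)
    {F : (Vert d → Fin κ) → Vert d → Fin κ} (hF : Adv θ F) :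
    (law (Vert d) κ) {ω | ¬ EvAdv F ω root} = 0 := by
  obtain ⟨n, rfl⟩ : ∃ n, θ = n + 1 := ⟨θ - 1, by omega⟩
  simp only [add_tsub_cancel_right] at hd
  have hn : 1 ≤ n := by omega
  have hκn : 3 ≤ κ * n := by nlinarith
  have hκ0 : (0 : ℝ) < κ := by exact_mod_cast (by omega : 0 < κ)
  have hκ3 : (3 : ℝ) ≤ κ := by exact_mod_cast hκ
  obtain ⟨a, ha⟩ : ∃ a, κ * n + a = d := ⟨d - κ * n, by omega⟩
  have ha4 : 3 * d ≤ 4 * a := by omega
  have ha12 : 9 ≤ a := by omega
  have hd12 : 12 ≤ d := by omega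
  -- the second condition
  have hc : ((d.choose a : ℕ) : ℝ) * (1 - 3 / 4) ^ (a - 1) ≤ 1 / 2 := by
    have h1 : ((d.choose a : ℕ) : ℝ) ≤ 2 ^ d := by exact_mod_cast Nat.choose_le_two_pow d a
    have e1 : (1 - 3 / 4 : ℝ) = 1 / 4 := by norm_num
    rw [e1]
    have h2 : (2 : ℝ) ^ (d + 1) ≤ 4 ^ (a - 1) := by
      have h3 : (4 : ℝ) ^ (a - 1) = 2 ^ (2 * (a - 1)) := by
        rw [pow_mul]; norm_num
      rw [h3]
      exact pow_le_pow_right₀ (by norm_num) (by omega)
    have h4 : (0 : ℝ) < 4 ^ (a - 1) := by positivity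
    rw [one_div, inv_pow, ← div_eq_mul_inv, div_le_iff₀ h4]
    rw [pow_succ] at h2
    linarith
  rcases Nat.eq_or_lt_of_le hn with h | h
  · subst h
    refine fluct_criterion_exact (by omega) hF (g := 3 / 4) (by norm_num)
      (by norm_num) ?_ (a := a) (by omega) (by simpa using ha) hc
    obtain ⟨D, rfl⟩ : ∃ D, d = D + 1 := ⟨d - 1, by omega⟩
    change _ ≤ bt (D + 1) 2 _
    rw [bt_two]
    set q : ℝ := 3 / 4 / κ with hq
    have hq0 : 0 < q := by positivity
    have hq1 : q ≤ 1 / 4 := by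
      rw [hq, div_le_iff₀ hκ0]; linarith
    set x : ℝ := (D + 1) * q with hx
    have hx3 : 3 ≤ x := by
      have h5 : (4 : ℝ) * κ ≤ D + 1 := by
        have : 4 * κ ≤ D + 1 := by omega
        exact_mod_cast this
      rw [hx, hq, mul_div_assoc', le_div_iff₀ hκ0]
      linarith
    have h1 : (1 - q) ^ D ≤ Real.exp (-q) ^ D := by
      refine pow_le_pow_left₀ (by linarith) ?_ D
      have := Real.add_one_le_exp (-q)
      linarith
    rw [← Real.exp_nat_mul] at h1
    have h2 : (D : ℝ) * (-q) = -x + q := by rw [hx]; ring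
    rw [h2] at h1
    -- `exp (-x + q) (1 - q + x) ≤ 1/4`
    have h3 : Real.exp (-x + q) * (1 - q + x) ≤ 1 / 4 := by
      set y : ℝ := x - q with hy
      have hy1 : 11 / 4 ≤ y := by rw [hy]; linarith
      have e2 : -x + q = -y := by rw [hy]; ring
      have e3 : 1 - q + x = 1 + y := by rw [hy]; ring
      rw [e2, e3]
      -- `4 (1 + y) ≤ exp y`
      have h4 : 4 * (1 + y) ≤ Real.exp y := by
        have h5 : Real.exp y = Real.exp 2 * Real.exp (y - 2) := by
          rw [← Real.exp_add]; congr 1; ring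
        have h6 := Real.quadratic_le_exp_of_nonneg (x := y - 2) (by linarith)
        have h7 := exp_two_lb
        rw [h5]
        have h8 : 7.389 * (1 + (y - 2) + (y - 2) ^ 2 / 2) ≤ Real.exp 2 * Real.exp (y - 2) := by
          have : 0 ≤ 1 + (y - 2) + (y - 2) ^ 2 / 2 := by nlinarith
          gcongr
        nlinarith
      rw [Real.exp_neg, ← div_eq_inv_mul, div_le_iff₀ (Real.exp_pos _)]
      linarith
    have h4 : (1 - q) ^ D * (1 - q + x) ≤ 1 / 4 := by
      refine le_trans ?_ h3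
      have : 0 ≤ 1 - q + x := by linarith
      gcongr
    linarith
  · refine fluct_criterion (by omega) (by omega) hF (g := 3 / 4) (z := 1 / 3) (by norm_num)
      (by norm_num) (by norm_num) (by norm_num) ?_ (a := a) (by omega) (by simpa using ha) hc
    have e1 : (1 - (1 - (1 / 3 : ℝ)) * (3 / 4 / κ)) = 1 - 1 / (2 * κ) := by
      field_simp; ring
    rw [e1, add_tsub_cancel_right]
    have h0 : 0 ≤ 1 - 1 / (2 * (κ : ℝ)) := by
      have : 1 / (2 * (κ : ℝ)) ≤ 1 := by
        rw [div_le_one (by positivity)]; linarith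
      linarith
    have h1 : 1 - 1 / (2 * (κ : ℝ)) ≤ Real.exp (-(1 / (2 * κ))) := by
      have := Real.add_one_le_exp (-(1 / (2 * (κ : ℝ))))
      linarith
    have h2 : (1 - 1 / (2 * (κ : ℝ))) ^ d ≤ Real.exp (-(1 / (2 * κ))) ^ d :=
      pow_le_pow_left₀ h0 h1 d
    rw [← Real.exp_nat_mul] at h2
    have h3 : (d : ℝ) * (-(1 / (2 * κ))) ≤ n * (-2) := by
      have h4 : (4 : ℝ) * (κ * n) ≤ d := by exact_mod_cast hd
      have h5 : (4 : ℝ) * n ≤ d / κ := by
        rw [le_div_iff₀ hκ0]; linarith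
      have h6 : (d : ℝ) * (-(1 / (2 * κ))) = -(d / κ) / 2 := by field_simp
      rw [h6]; linarith
    refine h2.trans ((Real.exp_le_exp.2 h3).trans ?_)
    rw [Real.exp_nat_mul]
    have h7 : Real.exp (-2) ≤ 1 / 2 * (1 / 3) := by
      rw [Real.exp_neg, inv_le_comm₀ (Real.exp_pos _) (by norm_num)]
      refine le_trans ?_ exp_two_lb
      norm_num
    calc Real.exp (-2) ^ n ≤ (1 / 2 * (1 / 3)) ^ n :=
          pow_le_pow_left₀ (Real.exp_pos _).le h7 n
      _ = (1 / 2) ^ n * (1 / 3) ^ n := by rw [mul_pow]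
      _ ≤ (1 / 2) ^ 2 * (1 / 3) ^ n := by
          refine mul_le_mul_of_nonneg_right ?_ (by positivity)
          exact pow_le_pow_of_le_one (by norm_num) (by norm_num) h
      _ = (1 - 3 / 4) * (1 / 3) ^ n := by norm_num

end Pool.Agent.Helper99.CA
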