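import Pool.Agent.Helper99.CA.FProb

/-!
# Fluctuation: explicit conditions
-/

open MeasureTheory Set ProbabilityTheory
open Pool.Agent.Helper94.CCA

namespace Pool.Agent.Helper99.CA

variable {d κ : ℕ} [NeZero κ]

lemma exp_five_halves : (35 / 3 : ℝ) ≤ Real.exp (5 / 2) := by
  have h1 : (1.625 : ℝ) ≤ Real.exp (1 / 2) := by
    have := Real.quadratic_le_exp_of_nonneg (x := 1 / 2) (by norm_num)
    norm_num at this ⊢
    linarith
  have h2 : (2.7182818283 : ℝ) < Real.exp 1 := Real.exp_one_gt_d9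
  have h3 : Real.exp (5 / 2) = Real.exp 1 * Real.exp 1 * Real.exp (1 / 2) := by
    rw [← Real.exp_add, ← Real.exp_add]; norm_num
  rw [h3]
  have h4 : (2.7182818283 : ℝ) * 2.7182818283 ≤ Real.exp 1 * Real.exp 1 := by nlinarith
  have h5 : (2.7182818283 : ℝ) * 2.7182818283 * 1.625 ≤ Real.exp 1 * Real.exp 1 * Real.exp (1 / 2) := by
    have := Real.exp_pos (1 / 2 : ℝ)
    nlinarith
  refine le_trans ?_ h5
  norm_num

/-- The root fluctuates almost surely if `d ≥ 5 κ (θ - 1)`, for every dynamics of type `Adv`. -/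
theorem fluct_five {θ : ℕ} (hκ : 3 ≤ κ) (hθ : 2 ≤ θ) (hd : 5 * (κ * (θ - 1)) ≤ d)
    {F : (Vert d → Fin κ) → Vert d → Fin κ} (hF : Adv θ F) :
    (law (Vert d) κ) {ω | ¬ EvAdv F ω root} = 0 := by
  obtain ⟨n, rfl⟩ : ∃ n, θ = n + 1 := ⟨θ - 1, by omega⟩
  simp only [add_tsub_cancel_right] at hd
  have hn : 1 ≤ n := by omega
  have hκn : 3 ≤ κ * n := by nlinarith
  obtain ⟨a, ha⟩ : ∃ a, κ * n + a = d := ⟨d - κ * n, by omega⟩
  have ha4 : 4 * d ≤ 5 * a := by omega
  have ha12 : 12 ≤ a := by omega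
  refine fluct_criterion (by omega) (by omega) hF (g := 7 / 10) (z := 2 / 7) (by norm_num)
    (by norm_num) (by norm_num) (by norm_num) ?_ (a := a) (by omega) (by simpa using ha) ?_
  · have hκ0 : (0 : ℝ) < κ := by exact_mod_cast (by omega : 0 < κ)
    have e1 : (1 - (1 - (2 / 7 : ℝ)) * (7 / 10 / κ)) = 1 - 1 / (2 * κ) := by
      field_simp; ring
    rw [e1, add_tsub_cancel_right]
    have h0 : 0 ≤ 1 - 1 / (2 * (κ : ℝ)) := by
      have : (3 : ℝ) ≤ κ := by exact_mod_cast hκ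
      have : 1 / (2 * (κ : ℝ)) ≤ 1 := by
        rw [div_le_one (by positivity)]; linarith
      linarith
    have h1 : 1 - 1 / (2 * (κ : ℝ)) ≤ Real.exp (-(1 / (2 * κ))) := by
      have := Real.add_one_le_exp (-(1 / (2 * (κ : ℝ))))
      linarith
    have h2 : (1 - 1 / (2 * (κ : ℝ))) ^ d ≤ Real.exp (-(1 / (2 * κ))) ^ d :=
      pow_le_pow_left₀ h0 h1 d
    rw [← Real.exp_nat_mul] at h2
    have h3 : (d : ℝ) * (-(1 / (2 * κ))) ≤ n * (-(5 / 2)) := by
      have h4 : (5 : ℝ) * (κ * n) ≤ d := by exact_mod_cast hd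
      have h5 : (5 : ℝ) * n ≤ d / κ := by
        rw [le_div_iff₀ hκ0]; linarith
      have h6 : (d : ℝ) * (-(1 / (2 * κ))) = -(d / κ) / 2 := by field_simp
      rw [h6]; linarith
    refine h2.trans ((Real.exp_le_exp.2 h3).trans ?_)
    rw [Real.exp_nat_mul]
    have h7 : Real.exp (-(5 / 2)) ≤ 3 / 10 * (2 / 7) := by
      rw [Real.exp_neg, inv_le_comm₀ (Real.exp_pos _) (by norm_num)]
      refine le_trans ?_ exp_five_halves
      norm_num
    calc Real.exp (-(5 / 2)) ^ n ≤ (3 / 10 * (2 / 7)) ^ n :=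
          pow_le_pow_left₀ (Real.exp_pos _).le h7 n
      _ = (3 / 10) ^ n * (2 / 7) ^ n := by rw [mul_pow]
      _ ≤ (3 / 10) ^ 1 * (2 / 7) ^ n := by
          refine mul_le_mul_of_nonneg_right ?_ (by positivity)
          exact pow_le_pow_of_le_one (by norm_num) (by norm_num) hn
      _ = (1 - 7 / 10) * (2 / 7) ^ n := by norm_num
  · have h1 : ((d.choose a : ℕ) : ℝ) ≤ 2 ^ d := by exact_mod_cast Nat.choose_le_two_pow d a
    have e1 : (1 - 7 / 10 : ℝ) = 3 / 10 := by norm_num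
    rw [e1]
    have h2 : (2 : ℝ) ^ (d + 1) * (3 / 10) ^ (a - 1) ≤ 1 := by
      have h3 : ((2 : ℝ) ^ (d + 1) * (3 / 10) ^ (a - 1)) ^ 4 ≤ 1 := by
        obtain ⟨b, rfl⟩ : ∃ b, a = b + 12 := ⟨a - 12, by omega⟩
        rw [mul_pow, ← pow_mul, ← pow_mul]
        have h4 : (2 : ℝ) ^ ((d + 1) * 4) ≤ 2 ^ (5 * (b + 12) + 4) :=
          pow_le_pow_right₀ (by norm_num) (by omega)
        have h5 : (b + 12 - 1) * 4 = 4 * b + 44 := by omega
        rw [h5]
        calc (2 : ℝ) ^ ((d + 1) * 4) * (3 / 10) ^ (4 * b + 44)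
            ≤ 2 ^ (5 * (b + 12) + 4) * (3 / 10) ^ (4 * b + 44) := by gcongr
          _ = (32 * (3 / 10) ^ 4) ^ b * (2 ^ 64 * (3 / 10) ^ 44) := by
              rw [mul_pow, ← pow_mul]
              have : (32 : ℝ) = 2 ^ 5 := by norm_num
              rw [this, ← pow_mul]
              ring
          _ ≤ 1 ^ b * 1 := by
              refine mul_le_mul (pow_le_pow_left₀ (by norm_num) (by norm_num) b) (by norm_num)
                (by norm_num) (by norm_num)
          _ = 1 := by simp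
      exact (pow_le_one_iff_of_nonneg (by positivity) (by norm_num)).1 h3
    have h6 : (2 : ℝ) ^ d * (3 / 10) ^ (a - 1) ≤ 1 / 2 := by
      rw [pow_succ] at h2
      linarith
    refine le_trans ?_ h6
    gcongr

lemma choose_mul_pow_le (n a : ℕ) :
    ((n.choose a : ℕ) : ℝ) * (a : ℝ) ^ a ≤ (Real.exp 1 * n) ^ a := by
  have h1 : ((n.choose a : ℕ) : ℝ) ≤ (n : ℝ) ^ a / (a.factorial : ℝ) := Nat.choose_le_pow_div a n
  have h2 : (a : ℝ) ^ a / (a.factorial : ℝ) ≤ Real.exp a :=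
    Real.pow_div_factorial_le_exp (a : ℝ) (by positivity) a
  have hf : (0 : ℝ) < a.factorial := by exact_mod_cast a.factorial_pos
  have h3 : (a : ℝ) ^ a ≤ Real.exp a * a.factorial := by
    rwa [div_le_iff₀ hf] at h2
  calc ((n.choose a : ℕ) : ℝ) * (a : ℝ) ^ a ≤ ((n : ℝ) ^ a / (a.factorial : ℝ)) *
        (Real.exp a * a.factorial) := by gcongr
    _ = (Real.exp 1 * n) ^ a := by
        rw [mul_pow, ← Real.exp_nat_mul, mul_one]
        field_simp

/-- The root fluctuates almost surely if `d ≥ (1 + ε) κ (θ - 1)` and `(θ - 1) ε ^ 3 ≥ 32`, for every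
dynamics of type `Adv`. -/
theorem fluct_sharp {θ : ℕ} (hκ : 3 ≤ κ) {ε : ℝ} (hε0 : 0 < ε) (hε1 : ε ≤ 1)
    (hθ : 32 ≤ ((θ : ℝ) - 1) * ε ^ 3) (hd : (1 + ε) * (κ * ((θ : ℝ) - 1)) ≤ d)
    {F : (Vert d → Fin κ) → Vert d → Fin κ} (hF : Adv θ F) :
    (law (Vert d) κ) {ω | ¬ EvAdv F ω root} = 0 := by
  have hθ1 : 1 ≤ θ := by
    by_contra h
    have : θ = 0 := by omega
    subst this
    have h3 : 0 < ε ^ 3 := by positivity
    simp at hθ
    linarith
  obtain ⟨n, rfl⟩ : ∃ n, θ = n + 1 := ⟨θ - 1, by omega⟩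
  simp only [Nat.cast_add, Nat.cast_one, add_sub_cancel_right] at hd hθ
  have hκ0 : (0 : ℝ) < κ := by exact_mod_cast (by omega : 0 < κ)
  have hκ3 : (3 : ℝ) ≤ κ := by exact_mod_cast hκ
  have hn0 : (0 : ℝ) ≤ n := Nat.cast_nonneg n
  have hle : κ * n ≤ d := by
    have h1 : (κ : ℝ) * n ≤ d := by
      have : 0 ≤ ε * (κ * (n : ℝ)) := by positivity
      nlinarith
    exact_mod_cast h1
  obtain ⟨a, ha⟩ : ∃ a, κ * n + a = d := ⟨d - κ * n, by omega⟩
  have haR : (κ : ℝ) * n + a = d := by exact_mod_cast ha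
  have hε2 : 0 < ε ^ 2 := by positivity
  have hε3 : 0 < ε ^ 3 := by positivity
  -- `a ≥ ε κ n`, `2 a ≥ ε d`
  have ha2 : ε * d ≤ 2 * a := by nlinarith
  have ha48 : 48 ≤ a * ε := by
    have h1 : ε * (κ * n) ≤ a := by nlinarith
    have h2 : 32 ≤ n * ε ^ 2 := by nlinarith
    have h3 : 3 * (n * ε ^ 2) ≤ κ * (n * ε ^ 2) := by
      have : 0 ≤ n * ε ^ 2 := by positivity
      nlinarith
    have h4 : ε * (κ * n) * ε ≤ a * ε := by nlinarith
    have h5 : ε * (κ * n) * ε = κ * (n * ε ^ 2) := by ring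
    linarith
  have ha0 : (0 : ℝ) < a := by
    by_contra h
    have : (a : ℝ) = 0 := le_antisymm (not_lt.1 h) (Nat.cast_nonneg a)
    rw [this] at ha48
    linarith
  have ha1 : 1 ≤ a := by exact_mod_cast ha0
  set δ : ℝ := ε / 12 with hδ
  have hδ0 : 0 < δ := by positivity
  have hδ1 : δ ≤ 1 / 12 := by rw [hδ]; linarith
  set η : ℝ := 5 * ε / 6 with hη
  have hη0 : 0 < η := by positivity
  have hη1 : η ≤ 5 / 6 := by rw [hη]; linarith
  refine fluct_criterion (by omega) (by omega) hF (g := 1 - δ) (z := 1 / (1 + η)) (by linarith)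
    (by linarith) (by positivity) (by rw [div_le_one (by linarith)]; linarith) ?_ (a := a) ha1
    (by simpa using ha) ?_
  · rw [add_tsub_cancel_right]
    have hz : 1 - 1 / (1 + η) = η / (1 + η) := by field_simp; ring
    rw [hz]
    set p : ℝ := η / (1 + η) * ((1 - δ) / κ) with hp
    have hp0 : 0 ≤ p := by
      have : 0 ≤ 1 - δ := by linarith
      positivity
    have hp1 : p ≤ 1 := by
      have h1 : η / (1 + η) ≤ 1 := by rw [div_le_one (by linarith)]; linarith
      have h2 : (1 - δ) / κ ≤ 1 := by rw [div_le_one hκ0]; linarith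
      have h3 : 0 ≤ (1 - δ) / κ := by
        have : 0 ≤ 1 - δ := by linarith
        positivity
      have h4 : 0 ≤ η / (1 + η) := by positivity
      calc p ≤ 1 * 1 := by rw [hp]; gcongr
        _ = 1 := by norm_num
    have h1 : (1 - p) ^ d ≤ Real.exp (-p) ^ d := by
      refine pow_le_pow_left₀ (by linarith) ?_ d
      have := Real.add_one_le_exp (-p)
      linarith
    rw [← Real.exp_nat_mul] at h1
    have h2 : (d : ℝ) * (-p) ≤ n * (-η) := by
      have h3 : (1 + ε) * n * κ ≤ d := by nlinarith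
      have h4 : (1 + η) * n * κ ≤ d * (1 - δ) := by
        have h5 : (1 + η) ≤ (1 + ε) * (1 - δ) := by rw [hη, hδ]; nlinarith
        have h6 : 0 ≤ n * (κ : ℝ) := by positivity
        have h7 : 0 ≤ 1 - δ := by linarith
        calc (1 + η) * n * κ = (1 + η) * (n * κ) := by ring
          _ ≤ ((1 + ε) * (1 - δ)) * (n * κ) := by gcongr
          _ = ((1 + ε) * n * κ) * (1 - δ) := by ring
          _ ≤ d * (1 - δ) := by gcongr
      have h8 : (d : ℝ) * p = η * (d * (1 - δ)) / ((1 + η) * κ) := by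
        rw [hp]; field_simp
      have h9 : η * n ≤ η * (d * (1 - δ)) / ((1 + η) * κ) := by
        rw [le_div_iff₀ (by positivity)]
        calc η * n * ((1 + η) * κ) = η * ((1 + η) * n * κ) := by ring
          _ ≤ η * (d * (1 - δ)) := by gcongr
      rw [mul_neg, h8]
      linarith
    refine h1.trans ((Real.exp_le_exp.2 h2).trans ?_)
    -- `exp (-η n) ≤ δ (1 + η)⁻ⁿ`
    have h3 : 1 + η ≤ Real.exp (η - η ^ 2 / 4) := by
      have h4 : 0 ≤ η - η ^ 2 / 4 := by nlinarith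
      have h5 := Real.quadratic_le_exp_of_nonneg h4
      refine le_trans ?_ h5
      have h6 : η ^ 2 / 4 ≤ (η - η ^ 2 / 4) ^ 2 / 2 := by
        have h7 : (η - η ^ 2 / 4) ^ 2 = η ^ 2 * (1 - η / 4) ^ 2 := by ring
        rw [h7]
        have h8 : (1 / 2 : ℝ) ≤ (1 - η / 4) ^ 2 := by nlinarith
        have h9 : 0 < η ^ 2 := by positivity
        nlinarith
      linarith
    have h4 : (1 + η) ^ n ≤ Real.exp (n * (η - η ^ 2 / 4)) := by
      rw [Real.exp_nat_mul]
      exact pow_le_pow_left₀ (by linarith) h3 n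
    have h5 : Real.exp (-(n * (η ^ 2 / 4))) ≤ δ := by
      have h6 : 5.5 / ε ≤ n * (η ^ 2 / 4) := by
        rw [div_le_iff₀ hε0, hη]
        nlinarith
      have h7 : 12 / ε ≤ Real.exp (5.5 / ε) := by
        have h8 : 0 ≤ 5.5 / ε := by positivity
        have h9 := Real.quadratic_le_exp_of_nonneg h8
        refine le_trans ?_ h9
        have h10 : 12 / ε ≤ (5.5 / ε) ^ 2 / 2 := by
          rw [div_pow, div_div, div_le_div_iff₀ hε0 (by positivity)]
          nlinarith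
        linarith
      have h8 : 12 / ε ≤ Real.exp (n * (η ^ 2 / 4)) := h7.trans (Real.exp_le_exp.2 h6)
      rw [Real.exp_neg, hδ, inv_le_comm₀ (Real.exp_pos _) (by positivity)]
      rw [inv_div]
      exact h8
    have h6 : (0 : ℝ) < (1 + η) ^ n := by positivity
    have h7 : (1 - (1 - δ)) * (1 / (1 + η)) ^ n = δ / (1 + η) ^ n := by
      rw [one_div, inv_pow]; ring
    rw [h7, le_div_iff₀ h6]
    calc Real.exp (n * -η) * (1 + η) ^ n ≤ Real.exp (n * -η) * Real.exp (n * (η - η ^ 2 / 4)) := by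
          gcongr
      _ = Real.exp (-(n * (η ^ 2 / 4))) := by
          rw [← Real.exp_add]; congr 1; ring
      _ ≤ δ := h5
  · have e1 : 1 - (1 - δ) = δ := by ring
    rw [e1]
    have h1 := choose_mul_pow_le d a
    have h2 : ((d.choose a : ℕ) : ℝ) * δ ^ a ≤ (1 / 2) ^ a := by
      have h3 : Real.exp 1 * d * δ ≤ a * (1 / 2) := by
        have h4 : Real.exp 1 ≤ 3 := by
          have := Real.exp_one_lt_d9; linarith
        have h5 : (d : ℝ) * δ ≤ a / 6 := by rw [hδ]; linarith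
        have h6 : 0 ≤ (d : ℝ) * δ := by positivity
        calc Real.exp 1 * d * δ = Real.exp 1 * (d * δ) := by ring
          _ ≤ 3 * (a / 6) := by gcongr
          _ = a * (1 / 2) := by ring
      have h4 : (Real.exp 1 * d * δ) ^ a ≤ (a * (1 / 2)) ^ a :=
        pow_le_pow_left₀ (by positivity) h3 a
      have h5 : (a : ℝ) ^ a * (((d.choose a : ℕ) : ℝ) * δ ^ a) ≤ (a : ℝ) ^ a * (1 / 2) ^ a := by
        calc (a : ℝ) ^ a * (((d.choose a : ℕ) : ℝ) * δ ^ a)
            = (((d.choose a : ℕ) : ℝ) * (a : ℝ) ^ a) * δ ^ a := by ring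
          _ ≤ (Real.exp 1 * d) ^ a * δ ^ a := by gcongr
          _ = (Real.exp 1 * d * δ) ^ a := by rw [mul_pow (Real.exp 1 * d) δ]
          _ ≤ (a * (1 / 2)) ^ a := h4
          _ = (a : ℝ) ^ a * (1 / 2) ^ a := by rw [mul_pow]
      exact le_of_mul_le_mul_left h5 (by positivity)
    have h3 : (1 / 2 : ℝ) ^ a ≤ δ / 2 := by
      have h4 : (a : ℝ) < 2 ^ a := by exact_mod_cast Nat.lt_two_pow_self
      rw [one_div, inv_pow, hδ]
      have h5 : 24 / ε ≤ 2 ^ a := by
        have : 24 / ε ≤ a := by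
          rw [div_le_iff₀ hε0]; linarith
        linarith
      rw [inv_le_comm₀ (by positivity) (by positivity)]
      have h6 : (ε / 12 / 2)⁻¹ = 24 / ε := by
        field_simp; norm_num
      rw [h6]
      exact h5
    obtain ⟨b, rfl⟩ : ∃ b, a = b + 1 := ⟨a - 1, by omega⟩
    rw [add_tsub_cancel_right]
    have h4 : ((d.choose (b + 1) : ℕ) : ℝ) * δ ^ b * δ ≤ 1 / 2 * δ := by
      calc ((d.choose (b + 1) : ℕ) : ℝ) * δ ^ b * δ
          = ((d.choose (b + 1) : ℕ) : ℝ) * δ ^ (b + 1) := by ring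
        _ ≤ 1 / 2 * δ := by linarith
    exact le_of_mul_le_mul_right h4 hδ0

end Pool.Agent.Helper99.CA
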