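import Pool.Agent.Helper99.CA.FDet

/-!
# Fluctuation: the probabilistic part
-/

open MeasureTheory Set ProbabilityTheory
open Pool.Agent.Helper94.CCA

namespace Pool.Agent.Helper99.CA

variable {d κ : ℕ} {S T : Type*}

lemma LDep.prod {v : Vert d} {X : (Vert d → Fin κ) → S} {Y : (Vert d → Fin κ) → T}
    (hX : LDep v X) (hY : LDep v Y) : LDep v (fun ω => (X ω, Y ω)) := by
  classical
  obtain ⟨K, h1, h2⟩ := hX
  obtain ⟨K', h1', h2'⟩ := hY
  refine ⟨K ∪ K', fun u hu => ?_, fun ω ω' hω => ?_⟩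
  · rcases Finset.mem_union.1 hu with h | h
    · exact h1 u h
    · exact h1' u h
  · exact Prod.ext (h2 ω ω' fun u hu => hω u (Finset.mem_union_left _ hu))
      (h2' ω ω' fun u hu => hω u (Finset.mem_union_right _ hu))

lemma cnt_congr {V J : Type*} {s : Finset J} {A B : J → Set (V → Fin κ)} {ω ω' : V → Fin κ}
    (h : ∀ j ∈ s, ω ∈ A j ↔ ω' ∈ B j) : cnt s A ω = cnt s B ω' := by
  classical
  unfold cnt
  congr 1
  exact Finset.filter_congr h

variable [NeZero κ]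

lemma ldep_gd (θ : ℕ) (k : ℕ) : ∀ v : Vert d, LDep v (fun ω => ω ∈ gd (κ := κ) θ k v) := by
  classical
  induction k with
  | zero => intro v; exact ⟨∅, by simp, fun ω ω' _ => rfl⟩
  | succ k ih =>
    intro v
    obtain ⟨K, h1, h2⟩ := LDep.children v
      (fun a ω => (ω (wnb v a), ω ∈ gd (κ := κ) θ k (wnb v a)))
      (fun a _ => (LDep.self _).prod (ih _))
    refine ⟨K, h1, fun ω ω' hω => ?_⟩
    have h3 := h2 ω ω' hω
    have h4 : ω v = ω' v := congrArg Prod.fst h3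
    have h5 : ∀ a ∈ ch v, ω (wnb v a) = ω' (wnb v a) ∧
        (ω ∈ gd (κ := κ) θ k (wnb v a)) = (ω' ∈ gd (κ := κ) θ k (wnb v a)) := by
      intro a ha
      have := congrFun (congrArg Prod.snd h3) ⟨a, ha⟩
      exact ⟨congrArg Prod.fst this, congrArg Prod.snd this⟩
    change (θ ≤ cnt _ _ _) = (θ ≤ cnt _ _ _)
    have h6 : cnt (ch v) (fun a => {ω'' : Vert d → Fin κ | ω'' (wnb v a) = ω v + 1 ∧
        ω'' ∈ gd θ k (wnb v a)}) ω = cnt (ch v) (fun a => {ω'' : Vert d → Fin κ |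
        ω'' (wnb v a) = ω' v + 1 ∧ ω'' ∈ gd θ k (wnb v a)}) ω' := by
      refine cnt_congr fun a ha => ?_
      simp only [mem_ofPred_eq]
      rw [(h5 a ha).1, (h5 a ha).2, h4]
    rw [h6]

lemma law_split (v : Vert d) {A : Set (Vert d → Fin κ)} (hA : MeasurableSet A) :
    (law (Vert d) κ).real A = ∑ c : Fin κ, (law (Vert d) κ).real {ω | ω v = c ∧ ω ∈ A} := by
  classical
  have h1 : A = ⋃ c ∈ (Finset.univ : Finset (Fin κ)), {ω : Vert d → Fin κ | ω v = c ∧ ω ∈ A} := by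
    ext ω
    simp
  conv_lhs => rw [h1]
  rw [measureReal_biUnion_finset]
  · intro c _ c' _ hcc
    change Disjoint _ _
    rw [Set.disjoint_left]
    rintro ω ⟨h, -⟩ ⟨h', -⟩
    exact hcc (h.symm.trans h')
  · intro c _
    exact ((measurable_pi_apply v) (Set.toFinite {c}).measurableSet).inter hA

lemma law_coord_eq {V : Type*} (v : V) (c : Fin κ) :
    (law V κ).real {ω : V → Fin κ | ω v = c} = 1 / κ := by
  have := law_coord (κ := κ) v {c}
  simpa using this

/-- The probability of being good with a given colour. -/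
theorem gd_prob {θ : ℕ} (hθ : 1 ≤ θ) {g z : ℝ} (hg0 : 0 ≤ g) (hg1 : g ≤ 1) (hz0 : 0 < z)
    (hz1 : z ≤ 1) (hN : (1 - (1 - z) * (g / κ)) ^ d ≤ (1 - g) * z ^ (θ - 1)) (k : ℕ) :
    ∀ (v : Vert d) (c : Fin κ),
      g / κ ≤ (law (Vert d) κ).real {ω | ω v = c ∧ ω ∈ gd θ k v} := by
  have hκ : (0 : ℝ) < κ := by exact_mod_cast Nat.pos_of_ne_zero (NeZero.ne κ)
  have hκ1 : (1 : ℝ) ≤ κ := by exact_mod_cast Nat.pos_of_ne_zero (NeZero.ne κ)
  induction k with
  | zero =>
    intro v c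
    have : {ω : Vert d → Fin κ | ω v = c ∧ ω ∈ gd θ 0 v} = {ω | ω v = c} := by
      ext ω; simp [gd]
    rw [this, law_coord_eq]
    gcongr
  | succ k ih =>
    intro v c
    set A : Fin (d + 1) → Set (Vert d → Fin κ) := fun a =>
      {ω' | ω' (wnb v a) = c + 1 ∧ ω' ∈ gd θ k (wnb v a)} with hA
    have hAd : ∀ a ∈ ch v, LDep (wnb v a) (fun ω => ω ∈ A a) := fun a _ =>
      ((LDep.self (wnb v a)).prod (ldep_gd θ k (wnb v a))).comp
        (fun x : Fin κ × Prop => x.1 = c + 1 ∧ x.2)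
    have h1 : {ω : Vert d → Fin κ | ω v = c ∧ ω ∈ gd θ (k + 1) v} =
        {ω | (fun x => x = c) (ω v) ∧ (fun n => θ ≤ n) (cnt (ch v) A ω)} := by
      ext ω
      simp only [mem_ofPred_eq]
      constructor
      · rintro ⟨h, h'⟩
        refine ⟨h, ?_⟩
        subst h
        exact h'
      · rintro ⟨h, h'⟩
        refine ⟨h, ?_⟩
        subst h
        exact h'
    rw [h1, tree_self_inter v A hAd (fun x => x = c) (fun n => θ ≤ n), law_coord_eq]
    have h2 : (law (Vert d) κ).real {ω | cnt (ch v) A ω ≤ θ - 1} * z ^ (θ - 1) ≤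
        (1 - (1 - z) * (g / κ)) ^ (ch v).card :=
      tree_cnt_le v A hAd (fun a _ => ih (wnb v a) (c + 1)) (θ - 1) hz0.le hz1
    have hb0 : 0 ≤ 1 - (1 - z) * (g / κ) := by
      have : g / κ ≤ 1 := by
        rw [div_le_one hκ]; linarith
      have h3 : 0 ≤ g / κ := by positivity
      nlinarith
    have hb1 : 1 - (1 - z) * (g / κ) ≤ 1 := by
      have h3 : 0 ≤ g / κ := by positivity
      nlinarith
    have hcard : d ≤ (ch v).card := by
      rcases eq_root_or v with h | ⟨b, hb⟩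
      · subst h
        rw [card_ch_root]; omega
      · rw [ch_eq_erase hb, Finset.card_erase_of_mem (Finset.mem_univ _)]
        simp
    have h3 : (1 - (1 - z) * (g / κ)) ^ (ch v).card ≤ (1 - (1 - z) * (g / κ)) ^ d :=
      pow_le_pow_of_le_one hb0 hb1 hcard
    have h4 : (law (Vert d) κ).real {ω | cnt (ch v) A ω ≤ θ - 1} ≤ 1 - g := by
      have h5 := (h2.trans h3).trans hN
      exact le_of_mul_le_mul_right h5 (by positivity)
    have h6 : {ω : Vert d → Fin κ | θ ≤ cnt (ch v) A ω} = {ω | cnt (ch v) A ω ≤ θ - 1}ᶜ := by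
      ext ω
      simp only [mem_compl_iff, mem_ofPred_eq]
      omega
    have h7 : MeasurableSet {ω : Vert d → Fin κ | cnt (ch v) A ω ≤ θ - 1} :=
      ((LDep.cnt v A hAd).comp (fun n => n ≤ θ - 1)).measurableSet
    rw [h6, probReal_compl_eq_one_sub h7]
    rw [div_eq_mul_one_div, mul_comm]
    gcongr
    linarith

lemma gd_prob' {θ : ℕ} (hθ : 1 ≤ θ) {g z : ℝ} (hg0 : 0 ≤ g) (hg1 : g ≤ 1) (hz0 : 0 < z)
    (hz1 : z ≤ 1) (hN : (1 - (1 - z) * (g / κ)) ^ d ≤ (1 - g) * z ^ (θ - 1)) (k : ℕ)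
    (v : Vert d) : (law (Vert d) κ).real (gd θ k v)ᶜ ≤ 1 - g := by
  have hκ : (0 : ℝ) < κ := by exact_mod_cast Nat.pos_of_ne_zero (NeZero.ne κ)
  have hm : MeasurableSet (gd (κ := κ) θ k v) := (ldep_gd θ k v).measurableSet
  rw [probReal_compl_eq_one_sub hm, law_split v hm]
  have h1 : ∑ c : Fin κ, (law (Vert d) κ).real {ω | ω v = c ∧ ω ∈ gd θ k v} ≥
      ∑ _c : Fin κ, g / κ :=
    Finset.sum_le_sum fun c _ => gd_prob hθ hg0 hg1 hz0 hz1 hN k v c
  rw [Finset.sum_const, Finset.card_univ, Fintype.card_fin, nsmul_eq_mul,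
    mul_div_cancel₀ _ hκ.ne'] at h1
  linarith

lemma ldep_hd (θ m N : ℕ) (k : ℕ) :
    ∀ v : Vert d, LDep v (fun ω => ω ∈ hd' (κ := κ) θ m N k v) := by
  induction k with
  | zero => intro v; exact ldep_gd θ N v
  | succ k ih =>
    intro v
    exact (LDep.cnt v _ (fun a _ => ih (wnb v a))).comp (fun n => m ≤ n)

omit [NeZero κ] in
lemma cnt_compl {V J : Type*} (s : Finset J) (A : J → Set (V → Fin κ)) (ω : V → Fin κ) :
    cnt s A ω + cnt s (fun j => (A j)ᶜ) ω = s.card := by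
  classical
  unfold cnt
  simp only [mem_compl_iff]
  exact Finset.card_filter_add_card_filter_not _

/-- One level up. -/
lemma hd_step {θ m N k a : ℕ} (v : Vert d) (ha : m + a = (ch v).card + 1) {x : ℝ}
    (hx : ∀ b ∈ ch v, (law (Vert d) κ).real (hd' θ m N k (wnb v b))ᶜ ≤ x) :
    (law (Vert d) κ).real (hd' θ m N (k + 1) v)ᶜ ≤ ((ch v).card.choose a : ℝ) * x ^ a := by
  have h1 : (hd' (κ := κ) θ m N (k + 1) v)ᶜ =
      {ω | a ≤ cnt (ch v) (fun b => (hd' θ m N k (wnb v b))ᶜ) ω} := by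
    ext ω
    have h2 := cnt_compl (ch v) (fun b => hd' (κ := κ) θ m N k (wnb v b)) ω
    rw [mem_compl_iff, mem_ofPred_eq]
    change ¬ (m ≤ cnt (ch v) (fun b => hd' θ m N k (wnb v b)) ω) ↔ _
    omega
  rw [h1]
  have h3 := tree_cnt_ge v (fun b => (hd' (κ := κ) θ m N k (wnb v b))ᶜ)
    (fun b _ => (ldep_hd θ m N k (wnb v b)).comp (fun p : Prop => ¬ p)) hx a a
  simpa using h3

/-- the sequence of bounds -/
def xs (d a : ℕ) (x : ℝ) : ℕ → ℝ
  | 0 => x
  | k + 1 => (d.choose a : ℝ) * (xs d a x k) ^ a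

lemma hd_bound {θ m N a : ℕ} (ha : m + a = d + 1) {x : ℝ}
    (hx : ∀ v : Vert d, (law (Vert d) κ).real (gd θ N v)ᶜ ≤ x) (k : ℕ) :
    ∀ v : Vert d, v ≠ root → (law (Vert d) κ).real (hd' θ m N k v)ᶜ ≤ xs d a x k := by
  induction k with
  | zero => intro v _; exact hx v
  | succ k ih =>
    intro v hv
    have h1 := hd_step (κ := κ) (θ := θ) (m := m) (N := N) (k := k) (a := a) v
      (by rw [card_ch hv]; exact ha) (x := xs d a x k) (fun b hb => ih _ (child_ne_root hb))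
    rwa [card_ch hv] at h1

lemma xs_nonneg (d a : ℕ) {x : ℝ} (hx : 0 ≤ x) (k : ℕ) : 0 ≤ xs d a x k := by
  induction k with
  | zero => exact hx
  | succ k ih => unfold xs; positivity

lemma xs_le {d a : ℕ} (ha : 1 ≤ a) {x : ℝ} (hx : 0 ≤ x)
    (hc : (d.choose a : ℝ) * x ^ (a - 1) ≤ 1 / 2) (k : ℕ) :
    xs d a x k ≤ x * (1 / 2) ^ k := by
  have key : ∀ k, xs d a x k ≤ x * (1 / 2) ^ k ∧ xs d a x k ≤ x := by
    intro k
    induction k with
    | zero => simp [xs]
    | succ k ih =>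
      have h0 := xs_nonneg d a hx k
      have h1 : xs d a x (k + 1) ≤ xs d a x k * (1 / 2) := by
        change (d.choose a : ℝ) * (xs d a x k) ^ a ≤ _
        obtain ⟨b, rfl⟩ : ∃ b, a = b + 1 := ⟨a - 1, by omega⟩
        rw [pow_succ, ← mul_assoc, mul_comm _ (xs d (b + 1) x k)]
        refine mul_le_mul_of_nonneg_left ?_ h0
        refine le_trans ?_ hc
        simp only [add_tsub_cancel_right]
        gcongr
        exact ih.2
      constructor
      · rw [pow_succ]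
        nlinarith [ih.1]
      · nlinarith [ih.2]
  exact (key k).1

/-- Criterion for almost sure fluctuation of the root, in terms of the probability of not being
good. -/
theorem fluct_of_seed {θ : ℕ} (hκ : 2 ≤ κ)
    {F : (Vert d → Fin κ) → Vert d → Fin κ} (hF : Adv θ F) {x : ℝ} (hx0 : 0 ≤ x)
    (hseed : ∀ (N : ℕ) (v : Vert d), (law (Vert d) κ).real (gd θ N v)ᶜ ≤ x) {a : ℕ} (ha1 : 1 ≤ a)
    (ha : κ * (θ - 1) + a = d) (hc : (d.choose a : ℝ) * x ^ (a - 1) ≤ 1 / 2) :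
    (law (Vert d) κ) {ω | ¬ EvAdv F ω root} = 0 := by
  set m := κ * (θ - 1) + 1 with hm
  set B : ℕ → ℕ → Set (Vert d → Fin κ) := fun k M => ⋂ N ≥ M, (hd' θ m N (k + 1) root)ᶜ with hB
  have hsub : ∀ k, {ω : Vert d → Fin κ | ¬ EvAdv F ω root} ⊆ ⋃ M, B k M := by
    intro k ω hω
    have h1 : ¬ ∃ᶠ N in Filter.atTop, ω ∈ hd' θ m N (k + 1) root := fun h =>
      hω (evAdv_of_frequently hF (k + 1) root h)
    rw [Filter.not_frequently, Filter.eventually_atTop] at h1
    obtain ⟨M, hM⟩ := h1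
    refine mem_iUnion.2 ⟨M, ?_⟩
    simp only [hB, mem_iInter]
    exact fun N hN => hM N hN
  have hbd : ∀ k N, (law (Vert d) κ) (hd' θ m N (k + 1) root)ᶜ ≤
      ENNReal.ofReal (((d + 1).choose (a + 1) : ℝ) * (x * (1 / 2) ^ k) ^ (a + 1)) := by
    intro k N
    have h1 := hd_step (κ := κ) (θ := θ) (m := m) (N := N) (k := k) (a := a + 1) (root : Vert d)
      (by rw [card_ch_root]; omega) (x := xs d a x k)
      (fun b hb => hd_bound (κ := κ) (a := a) (by omega)
        (fun v => hseed N v) k _ (child_ne_root hb))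
    rw [card_ch_root] at h1
    have h2 : ((d + 1).choose (a + 1) : ℝ) * xs d a x k ^ (a + 1) ≤
        ((d + 1).choose (a + 1) : ℝ) * (x * (1 / 2) ^ k) ^ (a + 1) := by
      have h3 := xs_nonneg d a hx0 k
      have h4 := xs_le (d := d) (a := a) ha1 hx0 hc k
      gcongr
    rw [measureReal_def] at h1
    exact (ENNReal.le_ofReal_iff_toReal_le (measure_ne_top _ _) (by positivity)).2 (h1.trans h2)
  have hle : ∀ k, (law (Vert d) κ) {ω | ¬ EvAdv F ω root} ≤
      ENNReal.ofReal (((d + 1).choose (a + 1) : ℝ) * (x * (1 / 2) ^ k) ^ (a + 1)) := by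
    intro k
    refine (measure_mono (hsub k)).trans ?_
    have hmono : Monotone (B k) := by
      intro M M' hMM ω hω
      simp only [hB, mem_iInter] at hω ⊢
      exact fun N hN => hω N (le_trans hMM hN)
    rw [hmono.measure_iUnion]
    refine iSup_le fun M => (measure_mono ?_).trans (hbd k M)
    intro ω hω
    simp only [hB, mem_iInter] at hω
    exact hω M le_rfl
  have hlim : Filter.Tendsto (fun k : ℕ =>
      ENNReal.ofReal (((d + 1).choose (a + 1) : ℝ) * (x * (1 / 2) ^ k) ^ (a + 1)))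
      Filter.atTop (nhds 0) := by
    rw [← ENNReal.ofReal_zero]
    refine ENNReal.tendsto_ofReal ?_
    have h1 : Filter.Tendsto (fun k : ℕ => (1 / 2 : ℝ) ^ k) Filter.atTop (nhds 0) :=
      tendsto_pow_atTop_nhds_zero_of_lt_one (by norm_num) (by norm_num)
    have h2 := (((h1.const_mul x).pow (a + 1)).const_mul ((d + 1).choose (a + 1) : ℝ))
    simpa using h2
  exact le_antisymm (ge_of_tendsto' hlim hle) bot_le

/-- Criterion for almost sure fluctuation of the root. -/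
theorem fluct_criterion {θ : ℕ} (hκ : 2 ≤ κ) (hθ : 1 ≤ θ)
    {F : (Vert d → Fin κ) → Vert d → Fin κ} (hF : Adv θ F) {g z : ℝ} (hg0 : 0 ≤ g) (hg1 : g ≤ 1)
    (hz0 : 0 < z) (hz1 : z ≤ 1)
    (hN : (1 - (1 - z) * (g / κ)) ^ d ≤ (1 - g) * z ^ (θ - 1)) {a : ℕ} (ha1 : 1 ≤ a)
    (ha : κ * (θ - 1) + a = d) (hc : (d.choose a : ℝ) * (1 - g) ^ (a - 1) ≤ 1 / 2) :
    (law (Vert d) κ) {ω | ¬ EvAdv F ω root} = 0 :=
  fluct_of_seed hκ hF (by linarith) (fun N v => gd_prob' hθ hg0 hg1 hz0 hz1 hN N v) ha1 ha hc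

end Pool.Agent.Helper99.CA
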