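import Pool.Agent.Helper99.CA.FExact

/-!
# Fluctuation if `d ≥ κ (θ + 3 √(θ ln θ))`
-/

open MeasureTheory Set ProbabilityTheory
open Pool.Agent.Helper94.CCA

namespace Pool.Agent.Helper99.CA

variable {d κ : ℕ} [NeZero κ]

lemma log_three_lb : (1.02 : ℝ) ≤ Real.log 3 := by
  have h1 : Real.log 3 = Real.log 2 + Real.log (3 / 2) := by
    rw [← Real.log_mul (by norm_num) (by norm_num)]; norm_num
  have h2 := Real.log_two_gt_d9
  have h3 := Real.one_sub_inv_le_log_of_pos (x := 3 / 2) (by norm_num)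
  norm_num at h3
  rw [h1]
  linarith

lemma log_four : Real.log 4 = 2 * Real.log 2 := by
  have : (4 : ℝ) = 2 ^ 2 := by norm_num
  rw [this, Real.log_pow]
  norm_num

/-- `ln θ ≤ 0.3466 θ` for `θ ≥ 4` -/
lemma log_le_of_four {θ : ℝ} (h : 4 ≤ θ) : Real.log θ ≤ 0.3466 * θ := by
  have h1 : Real.log θ = Real.log 4 + Real.log (θ / 4) := by
    rw [← Real.log_mul (by norm_num) (by positivity)]; congr 1; ring
  have h2 := Real.log_le_sub_one_of_pos (x := θ / 4) (by positivity)
  have h3 := Real.log_two_lt_d9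
  rw [h1, log_four]
  nlinarith

lemma log_five_thirds : Real.log (5 / 3) ≤ 0.511 := by
  -- `exp 0.511 ≥ 5 / 3`
  rw [Real.log_le_iff_le_exp (by norm_num)]
  have h := Real.sum_le_exp_of_nonneg (x := 0.511) (by norm_num) 6
  refine le_trans ?_ h
  norm_num [Finset.sum_range_succ, Nat.factorial]

/-- The real inequality behind the second-order condition. -/
lemma second_ineq {θ ℓ r : ℝ} (hθ : 4 ≤ θ) (hℓ0 : 1.386 ≤ ℓ) (hℓ1 : ℓ ≤ 0.3466 * θ)
    (hr0 : 0 ≤ r) (hr : r ^ 2 = θ * ℓ) {t : ℝ}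
    (ht : 0.4 + 2.55 * r ≤ t) : 2 * (t + θ - 1) * (ℓ + 0.511) ≤ t ^ 2 := by
  have hr1 : r ≤ 0.5888 * θ := by
    have : r ^ 2 ≤ (0.5888 * θ) ^ 2 := by rw [hr]; nlinarith
    exact le_of_sq_le_sq this (by positivity)
  have hrℓ : 1.69 * ℓ ≤ r := by
    have h1 : (1.69 * ℓ) ^ 2 ≤ r ^ 2 := by rw [hr]; nlinarith
    exact le_of_sq_le_sq h1 hr0
  have h1 : 0 ≤ (0.4 + 2.55 * r) ^ 2 - 2 * ((0.4 + 2.55 * r) + θ - 1) * (ℓ + 0.511) := by
    nlinarith [mul_nonneg (by linarith : (0 : ℝ) ≤ ℓ) (by linarith : 0 ≤ 0.5888 * θ - r)]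
  have h2 : 0 ≤ (t - (0.4 + 2.55 * r)) * (t + (0.4 + 2.55 * r) - 2 * (ℓ + 0.511)) := by
    apply mul_nonneg (by linarith)
    nlinarith
  nlinarith

/-- `(μ / n) ^ n ≤ exp (t - t ^ 2 / (2 μ))` for `μ = n + t` -/
lemma pow_ratio_le {μ t : ℝ} {n : ℕ} (hn : 0 < (n : ℝ)) (hμ : μ = n + t) (ht : 0 ≤ t) :
    (μ / n) ^ n ≤ Real.exp (t - t ^ 2 / (2 * μ)) := by
  have hμ0 : 0 < μ := by rw [hμ]; positivity
  have h1 : Real.log (μ / n) ≤ (μ / n - (μ / n)⁻¹) / 2 := by
    have h2 : 0 ≤ Real.log (μ / n) := Real.log_nonneg (by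
      rw [le_div_iff₀ hn]; linarith)
    have h3 := Real.self_le_sinh_iff.2 h2
    rwa [Real.sinh_log (by positivity)] at h3
  have h4 : (μ / n) ^ n = Real.exp (n * Real.log (μ / n)) := by
    rw [Real.exp_nat_mul, Real.exp_log (by positivity)]
  rw [h4]
  apply Real.exp_le_exp.2
  calc (n : ℝ) * Real.log (μ / n) ≤ n * ((μ / n - (μ / n)⁻¹) / 2) := by gcongr
    _ = t - t ^ 2 / (2 * μ) := by
      rw [inv_div]
      field_simp
      rw [hμ]
      ring

/-- The root fluctuates almost surely if `d ≥ κ (θ + 3 √(θ ln θ))`. -/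
theorem fluct_second {θ : ℕ} (hκ : 3 ≤ κ) (hθ : 2 ≤ θ)
    (hd : κ * ((θ : ℝ) + 3 * √(θ * Real.log θ)) ≤ d)
    {F : (Vert d → Fin κ) → Vert d → Fin κ} (hF : Adv θ F) :
    (law (Vert d) κ) {ω | ¬ EvAdv F ω root} = 0 := by
  have hκ0 : (0 : ℝ) < κ := by exact_mod_cast (by omega : 0 < κ)
  have hκ3 : (3 : ℝ) ≤ κ := by exact_mod_cast hκ
  have hfour : ∀ c : ℝ, ((4 * (θ - 1) : ℕ) : ℝ) ≤ θ + 3 * c → c ≤ √(θ * Real.log θ) →
      (law (Vert d) κ) {ω | ¬ EvAdv F ω root} = 0 := by
    intro c h1 h2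
    refine fluct_four hκ hθ ?_ hF
    have h3 : ((4 * (κ * (θ - 1)) : ℕ) : ℝ) ≤ d := by
      calc ((4 * (κ * (θ - 1)) : ℕ) : ℝ) = κ * ((4 * (θ - 1) : ℕ) : ℝ) := by push_cast; ring
        _ ≤ κ * ((θ : ℝ) + 3 * √(θ * Real.log θ)) := by
          apply mul_le_mul_of_nonneg_left _ hκ0.le
          linarith
        _ ≤ d := hd
    exact_mod_cast h3
  rcases Nat.lt_or_ge θ 4 with h4 | h4
  · interval_cases θ
    · refine hfour (2 / 3) (by norm_num) ?_
      apply Real.le_sqrt_of_sq_le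
      have := Real.log_two_gt_d9
      norm_num
      linarith
    · refine hfour (5 / 3) (by norm_num) ?_
      apply Real.le_sqrt_of_sq_le
      have := log_three_lb
      norm_num
      linarith
  · obtain ⟨n, rfl⟩ : ∃ n, θ = n + 1 := ⟨θ - 1, by omega⟩
    set Θ : ℝ := ((n + 1 : ℕ) : ℝ) with hΘ
    have hΘ4 : 4 ≤ Θ := by rw [hΘ]; exact_mod_cast h4
    have hnΘ : (n : ℝ) = Θ - 1 := by rw [hΘ]; push_cast; ring
    have hn0 : (0 : ℝ) < n := by rw [hnΘ]; linarith
    set ℓ : ℝ := Real.log Θ with hℓ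
    have hℓ0 : 1.386 ≤ ℓ := by
      have h1 := Real.log_two_gt_d9
      have h2 : Real.log 4 ≤ ℓ := Real.log_le_log (by norm_num) hΘ4
      rw [log_four] at h2
      linarith
    have hℓ1 : ℓ ≤ 0.3466 * Θ := log_le_of_four hΘ4
    set r : ℝ := √(Θ * ℓ) with hr
    have hr0 : 0 ≤ r := Real.sqrt_nonneg _
    have hr2 : r ^ 2 = Θ * ℓ := Real.sq_sqrt (by positivity)
    have hr235 : 2.35 ≤ r := by
      have : (2.35 : ℝ) ^ 2 ≤ r ^ 2 := by rw [hr2]; nlinarith
      exact le_of_sq_le_sq this hr0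
    set δ : ℝ := 3 / (5 * Θ) with hδ
    have hδ0 : 0 < δ := by positivity
    have hδΘ : δ * Θ = 3 / 5 := by rw [hδ]; field_simp
    have hδ1 : δ ≤ 3 / 20 := by
      rw [hδ, div_le_div_iff₀ (by positivity) (by norm_num)]; nlinarith
    set L : ℝ := Θ + 3 * r with hL
    have hL0 : 0 < L := by positivity
    set μ : ℝ := (1 - δ) * L with hμ
    set t : ℝ := μ - n with ht
    have hμt : μ = n + t := by rw [ht]; ring
    have ht0 : 0.4 + 2.55 * r ≤ t := by
      rw [ht, hμ, hL, hnΘ]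
      have h1 : (1 - δ) * (Θ + 3 * r) - (Θ - 1) = 1 - δ * Θ + 3 * r * (1 - δ) := by ring
      rw [h1, hδΘ]
      nlinarith
    have ht1 : 0 < t := by linarith
    have hμ0 : 0 < μ := by rw [hμt]; linarith
    have hdL : L ≤ d / κ := by
      rw [le_div_iff₀ hκ0]
      linarith
    -- the natural number `a`
    have hle : κ * n ≤ d := by
      have h1 : (κ : ℝ) * n ≤ d := by
        refine le_trans ?_ hd
        apply mul_le_mul_of_nonneg_left _ hκ0.le
        rw [hnΘ]; linarith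
      exact_mod_cast h1
    obtain ⟨a, ha⟩ : ∃ a, κ * n + a = d := ⟨d - κ * n, by omega⟩
    have haR : (κ : ℝ) * n + a = d := by exact_mod_cast ha
    have haL : (κ : ℝ) * (1 + 3 * r) ≤ a := by
      have h1 : (κ : ℝ) * (1 + 3 * r) = κ * L - κ * n := by rw [hL, hnΘ]; ring
      have h2 : (κ : ℝ) * L ≤ d := hd
      linarith
    have ha0 : (0 : ℝ) < a := lt_of_lt_of_le (by positivity) haL
    have ha1 : 1 ≤ a := by exact_mod_cast ha0
    refine fluct_criterion (by omega) (by omega) hF (g := 1 - δ) (z := n / μ) (by linarith)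
      (by linarith) (by positivity) (by rw [div_le_one hμ0]; linarith) ?_ (a := a) ha1
      (by simpa using ha) ?_
    · rw [add_tsub_cancel_right]
      set p : ℝ := (1 - n / μ) * ((1 - δ) / κ) with hp
      have hz0 : 0 ≤ 1 - n / μ := by
        have : n / μ ≤ 1 := by rw [div_le_one hμ0]; linarith
        linarith
      have hp0 : 0 ≤ p := by
        have : 0 ≤ 1 - δ := by linarith
        positivity
      have hp1 : p ≤ 1 := by
        have h1 : 1 - n / μ ≤ 1 := by
          have : 0 ≤ n / μ := by positivity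
          linarith
        have h2 : (1 - δ) / κ ≤ 1 := by rw [div_le_one hκ0]; linarith
        have h3 : 0 ≤ (1 - δ) / κ := by
          have : 0 ≤ 1 - δ := by linarith
          positivity
        calc p ≤ 1 * 1 := by rw [hp]; gcongr
          _ = 1 := by norm_num
      have h1 : (1 - p) ^ d ≤ Real.exp (-p) ^ d := by
        refine pow_le_pow_left₀ (by linarith) ?_ d
        have := Real.add_one_le_exp (-p)
        linarith
      rw [← Real.exp_nat_mul] at h1
      have h2 : (d : ℝ) * (-p) ≤ -t := by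
        have h3 : t = (1 - n / μ) * ((1 - δ) * L) := by
          rw [← hμ, sub_mul, one_mul, div_mul_cancel₀ _ hμ0.ne']
        have h4 : (d : ℝ) * p = (1 - n / μ) * ((1 - δ) * (d / κ)) := by
          rw [hp]; field_simp
        have h5 : t ≤ d * p := by
          rw [h4, h3]
          have : 0 ≤ 1 - δ := by linarith
          gcongr
        linarith
      refine h1.trans ((Real.exp_le_exp.2 h2).trans ?_)
      have e1 : (1 - (1 - δ)) * (n / μ) ^ n = δ / (μ / n) ^ n := by
        rw [div_pow, div_pow]; field_simp; ring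
      rw [e1, le_div_iff₀ (by positivity)]
      have h6 := pow_ratio_le hn0 hμt ht1.le
      have h7 : 2 * (t + Θ - 1) * (ℓ + 0.511) ≤ t ^ 2 := second_ineq hΘ4 hℓ0 hℓ1 hr0 hr2 ht0
      have h8 : ℓ + 0.511 ≤ t ^ 2 / (2 * μ) := by
        rw [le_div_iff₀ (by positivity), hμt, hnΘ]
        linarith
      have h9 : Real.log δ = -(ℓ + Real.log (5 / 3)) := by
        have : δ = (Θ * (5 / 3))⁻¹ := by rw [hδ]; field_simp
        rw [this, Real.log_inv, Real.log_mul (by positivity) (by norm_num)]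
      calc Real.exp (-t) * (μ / n) ^ n ≤ Real.exp (-t) * Real.exp (t - t ^ 2 / (2 * μ)) := by
            gcongr
        _ = Real.exp (-(t ^ 2 / (2 * μ))) := by rw [← Real.exp_add]; congr 1; ring
        _ ≤ Real.exp (Real.log δ) := by
            apply Real.exp_le_exp.2
            rw [h9]
            have := log_five_thirds
            linarith
        _ = δ := Real.exp_log hδ0
    · have e1 : 1 - (1 - δ) = δ := by ring
      rw [e1]
      have h1 := choose_mul_pow_le d a
      -- `e d δ ≤ (5/8) a`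
      have h3 : Real.exp 1 * d * δ ≤ a * (5 / 8) := by
        have h4 : Real.exp 1 ≤ 2.7183 := by
          have := Real.exp_one_lt_d9; linarith
        -- `d (1 + 3 r) ≤ a L`
        have h5 : (d : ℝ) * (1 + 3 * r) ≤ a * L := by
          have h6 : a * L - d * (1 + 3 * r) = n * (a - κ * (1 + 3 * r)) := by
            rw [← haR, hL]
            have : Θ = n + 1 := by linarith
            rw [this]; ring
          have h7 : 0 ≤ (n : ℝ) * (a - κ * (1 + 3 * r)) := mul_nonneg hn0.le (by linarith)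
          linarith
        have h8 : δ * L ≤ 0.22 * (1 + 3 * r) := by
          rw [hL]
          have h9 : δ * (Θ + 3 * r) = 3 / 5 + 3 * r * δ := by rw [mul_add, hδΘ]; ring
          rw [h9]
          nlinarith
        have h9 : (d : ℝ) * δ ≤ a * 0.22 := by
          have h10 : 0 < 1 + 3 * r := by positivity
          have h11 : (d : ℝ) * δ * (1 + 3 * r) ≤ a * 0.22 * (1 + 3 * r) := by
            calc (d : ℝ) * δ * (1 + 3 * r) = d * (1 + 3 * r) * δ := by ring
              _ ≤ a * L * δ := by gcongr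
              _ = a * (δ * L) := by ring
              _ ≤ a * (0.22 * (1 + 3 * r)) := by gcongr
              _ = a * 0.22 * (1 + 3 * r) := by ring
          exact le_of_mul_le_mul_right h11 h10
        have h10 : 0 ≤ (d : ℝ) * δ := by positivity
        calc Real.exp 1 * d * δ = Real.exp 1 * (d * δ) := by ring
          _ ≤ 2.7183 * (a * 0.22) := by gcongr
          _ ≤ a * (5 / 8) := by nlinarith
      have h2 : ((d.choose a : ℕ) : ℝ) * δ ^ a ≤ (5 / 8) ^ a := by
        have h4 : (Real.exp 1 * d * δ) ^ a ≤ (a * (5 / 8)) ^ a :=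
          pow_le_pow_left₀ (by positivity) h3 a
        have h5 : (a : ℝ) ^ a * (((d.choose a : ℕ) : ℝ) * δ ^ a) ≤ (a : ℝ) ^ a * (5 / 8) ^ a := by
          calc (a : ℝ) ^ a * (((d.choose a : ℕ) : ℝ) * δ ^ a)
              = (((d.choose a : ℕ) : ℝ) * (a : ℝ) ^ a) * δ ^ a := by ring
            _ ≤ (Real.exp 1 * d) ^ a * δ ^ a := by gcongr
            _ = (Real.exp 1 * d * δ) ^ a := by rw [mul_pow (Real.exp 1 * d) δ]
            _ ≤ (a * (5 / 8)) ^ a := h4
            _ = (a : ℝ) ^ a * (5 / 8) ^ a := by rw [mul_pow]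
        exact le_of_mul_le_mul_left h5 (by positivity)
      have h4 : (5 / 8 : ℝ) ^ a ≤ δ / 2 := by
        have h5 : (5 / 8 : ℝ) ≤ Real.exp (-(3 / 8)) := by
          have := Real.add_one_le_exp (-(3 / 8 : ℝ))
          linarith
        have h6 : (5 / 8 : ℝ) ^ a ≤ Real.exp (-(3 / 8)) ^ a :=
          pow_le_pow_left₀ (by norm_num) h5 a
        rw [← Real.exp_nat_mul] at h6
        refine h6.trans ?_
        have h7 : (a : ℝ) * -(3 / 8) = -(3 / 8 * a) := by ring
        rw [h7, Real.exp_neg, inv_le_comm₀ (Real.exp_pos _) (by positivity)]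
        have h8 := Real.quadratic_le_exp_of_nonneg (x := 3 / 8 * (a : ℝ)) (by positivity)
        refine le_trans ?_ h8
        have h9 : (δ / 2)⁻¹ = 10 / 3 * Θ := by rw [hδ]; field_simp; norm_num
        rw [h9]
        have h10 : 9 * r ≤ a := by nlinarith
        have h11 : 81 * (Θ * ℓ) ≤ a ^ 2 := by
          rw [← hr2]; nlinarith
        nlinarith
      obtain ⟨b, rfl⟩ : ∃ b, a = b + 1 := ⟨a - 1, by omega⟩
      rw [add_tsub_cancel_right]
      have h5 : ((d.choose (b + 1) : ℕ) : ℝ) * δ ^ b * δ ≤ 1 / 2 * δ := by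
        calc ((d.choose (b + 1) : ℕ) : ℝ) * δ ^ b * δ
            = ((d.choose (b + 1) : ℕ) : ℝ) * δ ^ (b + 1) := by ring
          _ ≤ 1 / 2 * δ := by linarith
      exact le_of_mul_le_mul_right h5 hδ0

end Pool.Agent.Helper99.CA
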