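import Pool.Agent.Helper99.CA.FProb
import Pool.Agent.Helper94.CCA.GhmFluct

/-!
# Greenberg-Hastings: witness trees
-/

open MeasureTheory Set ProbabilityTheory
open Pool.Agent.Helper94.CCA

namespace Pool.Agent.Helper99.CA

variable {d κ : ℕ} [NeZero κ]

/-- Witness trees: `wt θ t v` contains the configurations for which `v` is excited at time `t` with
a witness among its descendants. -/
def wt (θ : ℕ) : ℕ → Vert d → Set (Vert d → Fin κ)
  | 0, v => {ω | ω v = 1}
  | t + 1, v => {ω | ((ω v).val = 0 ∨ κ ≤ (ω v).val + t) ∧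
      θ ≤ cnt (ch v) (fun a => wt θ t (wnb v a)) ω}

lemma ghm_def (hd : 1 ≤ d) (θ : ℕ) (ξ : Vert d → Fin κ) (v : Vert d) :
    ghmL (wordsLab d hd) κ θ ξ v =
      if ξ v ≠ 0 ∨ θ ≤ (Finset.univ.filter fun a => ξ (wnb v a) = 1).card then ξ v + 1 else 0 := rfl

lemma val_add_one (hκ : 3 ≤ κ) {x : Fin κ} (hx : x.val + 1 < κ) : (x + 1).val = x.val + 1 := by
  rw [Fin.val_add, Fin.val_one', Nat.mod_eq_of_lt (by omega : 1 < κ), Nat.mod_eq_of_lt hx]

/-- A vertex in state `0` at time `t` started in one of the states `0, κ - t, ..., κ - 1`. -/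
theorem state_zero (hκ : 3 ≤ κ) (hd : 1 ≤ d) (θ : ℕ) (ω : Vert d → Fin κ) (v : Vert d) (t : ℕ)
    (h : (ghmL (wordsLab d hd) κ θ)^[t] ω v = 0) : (ω v).val = 0 ∨ κ ≤ (ω v).val + t := by
  by_contra hcon
  push Not at hcon
  obtain ⟨h1, h2⟩ := hcon
  have key : ∀ r, r ≤ t → ((ghmL (wordsLab d hd) κ θ)^[r] ω v).val = (ω v).val + r := by
    intro r
    induction r with
    | zero => intro _; rfl
    | succ r ih =>
      intro hr
      have h3 := ih (by omega)
      rw [Function.iterate_succ_apply', ghm_def]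
      have h4 : (ghmL (wordsLab d hd) κ θ)^[r] ω v ≠ 0 := by
        intro h0
        rw [h0] at h3
        simp only [Fin.val_zero] at h3
        omega
      rw [if_pos (Or.inl h4), val_add_one hκ (by omega), h3]
      omega
  have h3 := key t le_rfl
  rw [h] at h3
  simp only [Fin.val_zero] at h3
  omega

lemma one_ne_zero_fin (hκ : 3 ≤ κ) : (1 : Fin κ) ≠ 0 := by
  intro h
  have := congrArg Fin.val h
  rw [Fin.val_one', Nat.mod_eq_of_lt (by omega)] at this
  simp at this

lemma two_ne_zero_fin (hκ : 3 ≤ κ) : (1 : Fin κ) + 1 ≠ 0 := by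
  intro h
  have h1 := congrArg Fin.val h
  have h2 : ((1 : Fin κ) : ℕ) = 1 := by rw [Fin.val_one', Nat.mod_eq_of_lt (by omega)]
  rw [val_add_one hκ (by omega), h2] at h1
  simp at h1

/-- An excitation has a witness tree. -/
theorem wt_of_one (hκ : 3 ≤ κ) (hd : 1 ≤ d) (θ : ℕ) (ω : Vert d → Fin κ) (t : ℕ) :
    ∀ v : Vert d, (ghmL (wordsLab d hd) κ θ)^[t] ω v = 1 →
      (∀ b, v.1.head? = some b → ∀ s, t = s + 1 →
        (ghmL (wordsLab d hd) κ θ)^[s] ω (wnb v b) ≠ 1) → ω ∈ wt θ t v := by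
  classical
  induction t with
  | zero => intro v h _; exact h
  | succ t ih =>
    intro v h hpar
    rw [Function.iterate_succ_apply', ghm_def] at h
    by_cases hc : (ghmL (wordsLab d hd) κ θ)^[t] ω v ≠ 0 ∨
        θ ≤ (Finset.univ.filter fun a => (ghmL (wordsLab d hd) κ θ)^[t] ω (wnb v a) = 1).card
    · rw [if_pos hc] at h
      have h0 : (ghmL (wordsLab d hd) κ θ)^[t] ω v = 0 := by simpa using h
      rcases hc with hc | hc
      · exact absurd h0 hc
      refine ⟨state_zero hκ hd θ ω v t h0, hc.trans ?_⟩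
      unfold cnt
      refine Finset.card_le_card fun a ha => ?_
      have ha1 := (Finset.mem_filter.1 ha).2
      have ha2 : a ∈ ch v := by
        rw [mem_ch]
        intro hh
        exact hpar a hh t rfl ha1
      refine Finset.mem_filter.2 ⟨ha2, ih _ ha1 ?_⟩
      intro b hb s hs
      rw [head_child ha2] at hb
      obtain rfl : a = b := Option.some.inj hb
      rw [wnb_wnb]
      intro h1
      rw [hs, Function.iterate_succ_apply', ghm_def, h1,
        if_pos (Or.inl (one_ne_zero_fin hκ))] at h0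
      exact two_ne_zero_fin hκ h0
    · rw [if_neg hc] at h
      exact absurd h.symm (one_ne_zero_fin hκ)

/-- An excitation of the root. -/
theorem root_of_one (hκ : 3 ≤ κ) (hd : 1 ≤ d) (θ : ℕ) (ω : Vert d → Fin κ) (t : ℕ)
    (h : (ghmL (wordsLab d hd) κ θ)^[t + 1] ω root = 1) :
    ω ∈ {ω | θ ≤ cnt (ch root) (fun a => wt θ t (wnb (root : Vert d) a)) ω} := by
  have h1 := wt_of_one hκ hd θ ω (t + 1) root h (by
    intro b hb
    simp [root] at hb)
  exact h1.2

lemma ldep_wt (θ t : ℕ) : ∀ v : Vert d, LDep v (fun ω => ω ∈ wt (κ := κ) θ t v) := by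
  induction t with
  | zero => intro v; exact (LDep.self v).comp (fun x => x = 1)
  | succ t ih =>
    intro v
    exact ((LDep.self v).prod (LDep.cnt v _ (fun a _ => ih (wnb v a)))).comp
      (fun p : Fin κ × ℕ => (p.1.val = 0 ∨ κ ≤ p.1.val + t) ∧ θ ≤ p.2)

lemma card_states (t : ℕ) :
    (Finset.univ.filter fun s : Fin κ => s.val = 0 ∨ κ ≤ s.val + t).card ≤ t + 1 := by
  classical
  have hκ : 0 < κ := Nat.pos_of_ne_zero (NeZero.ne κ)
  have h : (Finset.univ.filter fun s : Fin κ => s.val = 0 ∨ κ ≤ s.val + t) ⊆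
      (Finset.range (t + 1)).image fun i => Fin.ofNat κ (κ - i) := by
    intro s hs
    have hs2 := s.2
    rw [Finset.mem_image]
    rcases (Finset.mem_filter.1 hs).2 with h0 | h0
    · refine ⟨0, by simp, ?_⟩
      ext
      simp [h0]
    · by_cases h1 : s.val = 0
      · refine ⟨0, by simp, ?_⟩
        ext
        simp [h1]
      · refine ⟨κ - s.val, by simp; omega, ?_⟩
        ext
        simp only [Fin.val_ofNat]
        have : κ - (κ - s.val) = s.val := by omega
        rw [this, Nat.mod_eq_of_lt hs2]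
  calc _ ≤ _ := Finset.card_le_card h
    _ ≤ (Finset.range (t + 1)).card := Finset.card_image_le
    _ = t + 1 := by simp

/-- One step of the recursion. -/
theorem wt_step (θ t : ℕ) (v : Vert d) :
    κ * (law (Vert d) κ).real (wt θ (t + 1) v) ≤
      (t + 1 : ℝ) * (law (Vert d) κ).real {ω | θ ≤ cnt (ch v) (fun a => wt θ t (wnb v a)) ω} := by
  classical
  have hκ : (0 : ℝ) < κ := by exact_mod_cast Nat.pos_of_ne_zero (NeZero.ne κ)
  have h1 := tree_self_inter v (fun a => wt (κ := κ) θ t (wnb v a)) (fun a _ => ldep_wt θ t _)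
    (fun x => x.val = 0 ∨ κ ≤ x.val + t) (fun n => θ ≤ n)
  have h2 : wt (κ := κ) θ (t + 1) v = {ω | (fun x : Fin κ => x.val = 0 ∨ κ ≤ x.val + t) (ω v) ∧
      (fun n => θ ≤ n) (cnt (ch v) (fun a => wt θ t (wnb v a)) ω)} := rfl
  rw [h2, h1]
  have h3 : (law (Vert d) κ).real {ω : Vert d → Fin κ |
      (fun x : Fin κ => x.val = 0 ∨ κ ≤ x.val + t) (ω v)} ≤ (t + 1 : ℝ) / κ := by
    have h4 := law_coord (κ := κ) v
      (Finset.univ.filter fun s : Fin κ => s.val = 0 ∨ κ ≤ s.val + t)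
    simp only [Finset.mem_filter, Finset.mem_univ, true_and] at h4
    have h6 : (((Finset.univ.filter fun s : Fin κ => s.val = 0 ∨ κ ≤ s.val + t).card : ℕ) : ℝ) ≤
        ((t + 1 : ℕ) : ℝ) := Nat.cast_le.2 (card_states t)
    rw [Nat.cast_add, Nat.cast_one] at h6
    rw [h4]
    exact div_le_div_of_nonneg_right h6 hκ.le
  have h5 : (0 : ℝ) ≤ (law (Vert d) κ).real
      {ω | (fun n => θ ≤ n) (cnt (ch v) (fun a => wt θ t (wnb v a)) ω)} := measureReal_nonneg
  calc (κ : ℝ) * (_ * _) ≤ κ * ((t + 1 : ℝ) / κ * _) := by gcongr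
    _ = _ := by field_simp

/-- Almost sure fixation of the root from a summable bound. -/
theorem ghm_fix_of_bound (hκ : 3 ≤ κ) (hd : 1 ≤ d) {θ : ℕ} (hθ : 1 ≤ θ) (u : ℕ → ℝ)
    (hu : ∀ t, ∀ v : Vert d, v ≠ root → (law (Vert d) κ).real (wt θ t v) ≤ u t)
    (hsum : Summable u) :
    (law (Vert d) κ) {ω | Fluct (ghmL (wordsLab d hd) κ θ) ω root} = 0 := by
  have h1 : ∀ ω : Vert d → Fin κ, Fluct (ghmL (wordsLab d hd) κ θ) ω root →
      ∃ᶠ t in Filter.atTop, θ ≤ cnt (ch root) (fun a => wt θ t (wnb (root : Vert d) a)) ω := by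
    intro ω hω
    rw [fluct_iff_exc hκ, Filter.frequently_atTop] at hω
    rw [Filter.frequently_atTop]
    intro N
    obtain ⟨t, ht, h⟩ := hω (N + 1)
    obtain ⟨s, rfl⟩ : ∃ s, t = s + 1 := ⟨t - 1, by omega⟩
    exact ⟨s, by omega, root_of_one hκ hd θ ω s h⟩
  have h2 : ∀ t, (law (Vert d) κ)
      {ω | θ ≤ cnt (ch root) (fun a => wt θ t (wnb (root : Vert d) a)) ω} ≤
      ENNReal.ofReal ((d + 1 : ℝ) * u t) := by
    intro t
    have h3 := tree_cnt_ge (root : Vert d) (fun a => wt (κ := κ) θ t (wnb root a))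
      (fun a _ => ldep_wt θ t _) (fun a ha => hu t _ (child_ne_root ha)) θ 1
    rw [card_ch_root] at h3
    simp only [Nat.choose_one_right, pow_one, Nat.cast_add, Nat.cast_one] at h3
    have h4 : (1 : ℝ) ≤ θ := by exact_mod_cast hθ
    have h5 : (0 : ℝ) ≤ (law (Vert d) κ).real
      {ω | θ ≤ cnt (ch root) (fun a => wt θ t (wnb (root : Vert d) a)) ω} := measureReal_nonneg
    have h6 : (law (Vert d) κ).real
      {ω | θ ≤ cnt (ch root) (fun a => wt θ t (wnb (root : Vert d) a)) ω} ≤ (d + 1 : ℝ) * u t := by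
      nlinarith
    rw [measureReal_def] at h6
    have h7 := ENNReal.ofReal_le_ofReal h6
    rwa [ENNReal.ofReal_toReal (measure_ne_top _ _)] at h7
  have hu0 : ∀ t, 0 ≤ u t := by
    intro t
    have : (wnb (root : Vert d) ⟨0, by omega⟩) ≠ root := child_ne_root (by
      rw [mem_ch]; simp [root])
    exact measureReal_nonneg.trans (hu t _ this)
  have h3 : ∑' t, (law (Vert d) κ)
      {ω | θ ≤ cnt (ch root) (fun a => wt θ t (wnb (root : Vert d) a)) ω} ≠ ⊤ := by
    refine ne_top_of_le_ne_top ?_ (ENNReal.tsum_le_tsum h2)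
    exact (hsum.mul_left (d + 1 : ℝ)).tsum_ofReal_ne_top
  have h4 := measure_setOfPred_frequently_eq_zero h3
  exact measure_mono_null h1 h4

end Pool.Agent.Helper99.CA
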