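import Pool.Agent.Helper94.CCA.Inv

/-!
# Functions of disjoint finite sets of coordinates are independent under the product law
-/

open MeasureTheory Set ProbabilityTheory
open scoped ENNReal
open Pool.Agent.Helper94.CCA

namespace Pool.Agent.Helper99.CA

variable {V : Type*} {κ : ℕ} {S T : Type*}

/-- `X` depends only on the coordinates in `K`. -/
def Dep (K : Finset V) (X : (V → Fin κ) → S) : Prop :=
  ∀ ω ω' : V → Fin κ, (∀ v ∈ K, ω v = ω' v) → X ω = X ω'

lemma Dep.mono {K K' : Finset V} (h : K ⊆ K') {X : (V → Fin κ) → S} (hX : Dep K X) : Dep K' X :=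
  fun ω ω' hω => hX ω ω' fun v hv => hω v (h hv)

lemma Dep.comp {K : Finset V} {X : (V → Fin κ) → S} (hX : Dep K X) (φ : S → T) :
    Dep K (fun ω => φ (X ω)) := fun ω ω' hω => congrArg φ (hX ω ω' hω)

lemma Dep.coord {K : Finset V} {v : V} (hv : v ∈ K) : Dep (κ := κ) K (fun ω => ω v) :=
  fun _ _ hω => hω v hv

variable [NeZero κ]

/-- the configuration with the values `x` on `K` and `0` elsewhere -/
private noncomputable def ext0 (K : Finset V) (x : K → Fin κ) : V → Fin κ :=
  fun v => by classical exact if h : v ∈ K then x ⟨v, h⟩ else 0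

private lemma Dep.factor {K : Finset V} {X : (V → Fin κ) → S} (hX : Dep K X) :
    X = (fun x : K → Fin κ => X (ext0 K x)) ∘ fun (ω : V → Fin κ) (i : K) => ω i := by
  funext ω
  refine hX _ _ fun v hv => ?_
  simp [ext0, hv]

private lemma measurable_restr (K : Finset V) :
    Measurable fun (ω : V → Fin κ) (i : K) => ω i :=
  measurable_pi_iff.2 fun i => measurable_pi_apply i.1

lemma Dep.measurable [MeasurableSpace S] {K : Finset V} {X : (V → Fin κ) → S} (hX : Dep K X) :
    Measurable X := by
  rw [hX.factor]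
  exact (measurable_of_countable _).comp (measurable_restr K)

lemma Dep.measurableSet {K : Finset V} {A : Set (V → Fin κ)} (hA : Dep K (fun ω => ω ∈ A)) :
    MeasurableSet A := by
  have := hA.measurable (S := Prop)
  exact measurableSet_setOfPred.2 this

theorem iIndepFun_coord : iIndepFun (fun (i : V) (ω : V → Fin κ) => ω i) (law V κ) := by
  unfold law
  exact iIndepFun_infinitePi (X := fun _ (x : Fin κ) => x) (fun _ => measurable_id)

theorem indepFun_of_dep [MeasurableSpace S] [MeasurableSpace T] {K K' : Finset V}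
    (hd : Disjoint K K') {f : (V → Fin κ) → S} {g : (V → Fin κ) → T} (hf : Dep K f)
    (hg : Dep K' g) : IndepFun f g (law V κ) := by
  have h2 := (iIndepFun_coord (V := V) (κ := κ)).indepFun_finset K K' hd
    (fun i => measurable_pi_apply i)
  rw [hf.factor, hg.factor]
  exact h2.comp (measurable_of_countable _) (measurable_of_countable _)

theorem lintegral_mul_of_dep {K K' : Finset V} (hd : Disjoint K K')
    {f g : (V → Fin κ) → ℝ≥0∞} (hf : Dep K f) (hg : Dep K' g) :
    ∫⁻ ω, f ω * g ω ∂law V κ = (∫⁻ ω, f ω ∂law V κ) * ∫⁻ ω, g ω ∂law V κ := by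
  have := lintegral_mul_eq_lintegral_mul_lintegral_of_indepFun hf.measurable hg.measurable
    (indepFun_of_dep hd hf hg)
  simpa using this

theorem Dep.prod {J : Type*} {s : Finset J} {K : J → Finset V} {f : J → (V → Fin κ) → ℝ≥0∞}
    (hf : ∀ j ∈ s, Dep (K j) (f j)) [DecidableEq V] :
    Dep (s.biUnion K) (fun ω => ∏ j ∈ s, f j ω) := by
  intro ω ω' hω
  exact Finset.prod_congr rfl fun j hj => hf j hj ω ω' fun v hv =>
    hω v (Finset.mem_biUnion.2 ⟨j, hj, hv⟩)

theorem lintegral_prod_of_dep {J : Type*} (s : Finset J) (K : J → Finset V)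
    (hK : (s : Set J).PairwiseDisjoint K) (f : J → (V → Fin κ) → ℝ≥0∞)
    (hf : ∀ j ∈ s, Dep (K j) (f j)) :
    ∫⁻ ω, ∏ j ∈ s, f j ω ∂law V κ = ∏ j ∈ s, ∫⁻ ω, f j ω ∂law V κ := by
  classical
  induction s using Finset.induction_on with
  | empty => simp
  | insert a s ha ih =>
    have hK' : (s : Set J).PairwiseDisjoint K :=
      hK.subset (by simp)
    have hf' : ∀ j ∈ s, Dep (K j) (f j) := fun j hj => hf j (Finset.mem_insert_of_mem hj)
    have hdis : Disjoint (K a) (s.biUnion K) := by
      rw [Finset.disjoint_biUnion_right]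
      intro j hj
      exact hK (by simp) (by simp [hj]) (fun h => ha (h ▸ hj))
    simp only [Finset.prod_insert ha]
    rw [lintegral_mul_of_dep hdis (hf a (Finset.mem_insert_self a s)) (Dep.prod hf'),
      ih hK' hf']

end Pool.Agent.Helper99.CA
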