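import Pool.Agent.Helper99.CA.FExact

/-!
# The fluctuation probabilities on a regular tree
-/

open MeasureTheory Set
open Pool.Agent.Helper94.CCA

namespace Pool.Agent.Helper99.CA

/-- Transfer of the dynamics to the words model with root `ρ`. -/
theorem transfer' {V : Type*} (G : SimpleGraph V) (hG : G.IsTree) (d : ℕ) (hd : 1 ≤ d)
    (hdeg : ∀ v, (G.neighborSet v).ncard = d + 1) (κ θ : ℕ) [NeZero κ] (ρ : V) :
    ∃ f : Vert d ≃ V, f root = ρ ∧
      MeasurePreserving (fun ω : V → Fin κ => ω ∘ f) (law V κ) (law (Vert d) κ) ∧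
      (∀ ω : V → Fin κ, ccaStep G κ θ ω ∘ f = ccaL (wordsLab d hd) κ θ (ω ∘ f)) ∧
      (∀ ω : V → Fin κ, ghmStep G κ θ ω ∘ f = ghmL (wordsLab d hd) κ θ (ω ∘ f)) := by
  obtain ⟨f, hf, hf2⟩ := exists_equiv_words G hG hdeg ρ
  have hL : ∀ v u, G.Adj v u ↔ ∃ a, u = ((wordsLab d hd).map f).nb v a := by
    intro v u
    have h := hf2 (f.symm v) u
    rw [f.apply_symm_apply] at h
    exact h
  have hnb : ∀ (v : Vert d) a, ((wordsLab d hd).map f).nb (f v) a = f (wnb v a) := by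
    intro v a
    change f (wnb (f.symm (f v)) a) = _
    rw [f.symm_apply_apply]
  refine ⟨f, hf, ?_, ?_, ?_⟩
  · have h := Measure.map_infinitePi_infinitePi_of_inj
      (P := fun _ : V => (PMF.uniformOfFintype (Fin κ)).toMeasure) f.injective
    have hm : Measurable (fun ω : V → Fin κ => ω ∘ f) :=
      measurable_pi_iff.2 fun v => measurable_pi_apply (f v)
    refine ⟨hm, ?_⟩
    unfold law
    exact h
  · rw [ccaStep_eq hL κ θ]
    intro ω
    funext v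
    simp only [ccaL, Function.comp_apply, hnb]
    rfl
  · rw [ghmStep_eq hL κ θ]
    intro ω
    funext v
    simp only [ghmL, Function.comp_apply, hnb]
    rfl

lemma EvAdv.steps {d κ : ℕ} [NeZero κ] {F : (Vert d → Fin κ) → Vert d → Fin κ}
    {ω : Vert d → Fin κ} {v : Vert d} (h : EvAdv F ω v) :
    ∃ T, ∀ t, T ≤ t → F^[t + 1] ω v = F^[t] ω v + 1 := by
  obtain ⟨T, hT⟩ := h
  refine ⟨T, fun t ht => ?_⟩
  obtain ⟨s, rfl⟩ := Nat.exists_eq_add_of_le ht
  rw [add_assoc, hT, hT, ofNat_succ, add_assoc]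

/-- On a regular tree almost surely every vertex advances in every step from some time on. -/
theorem both_ae {V : Type*} (G : SimpleGraph V) (hG : G.IsTree) (d : ℕ) (hd : 1 ≤ d)
    (hdeg : ∀ v, (G.neighborSet v).ncard = d + 1) (κ θ : ℕ) [NeZero κ]
    (h : ∀ F : (Vert d → Fin κ) → Vert d → Fin κ, Adv θ F →
      (law (Vert d) κ) {ω | ¬ EvAdv F ω root} = 0) :
    (∀ᵐ ω ∂law V κ, ∀ v, ∃ T, ∀ t, T ≤ t →
      (ccaStep G κ θ)^[t + 1] ω v = (ccaStep G κ θ)^[t] ω v + 1) ∧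
    (∀ᵐ ω ∂law V κ, ∀ v, ∃ T, ∀ t, T ≤ t →
      (ghmStep G κ θ)^[t + 1] ω v = (ghmStep G κ θ)^[t] ω v + 1) := by
  obtain ⟨hV, -⟩ := exists_lab G hG hd hdeg
  have key : ∀ (F : (V → Fin κ) → V → Fin κ) (F' : (Vert d → Fin κ) → Vert d → Fin κ)
      (f : Vert d ≃ V), MeasurePreserving (fun ω : V → Fin κ => ω ∘ f) (law V κ) (law (Vert d) κ) →
      (∀ ω : V → Fin κ, F ω ∘ f = F' (ω ∘ f)) → Adv θ F' →
      ∀ᵐ ω ∂law V κ, ∃ T, ∀ t, T ≤ t → F^[t + 1] ω (f root) = F^[t] ω (f root) + 1 := by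
    intro F F' f hf hFF hadv
    have h1 := hf.quasiMeasurePreserving.preimage_null (h F' hadv)
    rw [ae_iff]
    refine measure_mono_null ?_ h1
    intro ω hω
    rw [mem_preimage, mem_ofPred_eq]
    intro hev
    apply hω
    obtain ⟨T, hT⟩ := hev.steps
    refine ⟨T, fun t ht => ?_⟩
    have h2 := hT t ht
    rw [← iterate_comp_equiv f F F' hFF, ← iterate_comp_equiv f F F' hFF] at h2
    exact h2
  constructor
  · rw [ae_all_iff]
    intro v
    obtain ⟨f, hf, h1, h2, h3⟩ := transfer' G hG d hd hdeg κ θ v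
    have := key _ _ f h1 h2 (adv_cca hd θ)
    rwa [hf] at this
  · rw [ae_all_iff]
    intro v
    obtain ⟨f, hf, h1, h2, h3⟩ := transfer' G hG d hd hdeg κ θ v
    have := key _ _ f h1 h3 (adv_ghm hd θ)
    rwa [hf] at this

lemma fluct_of_steps {V : Type*} {κ : ℕ} [NeZero κ] (hκ : 2 ≤ κ) {F : (V → Fin κ) → V → Fin κ}
    {ω : V → Fin κ} {v : V} (h : ∃ T, ∀ t, T ≤ t → F^[t + 1] ω v = F^[t] ω v + 1) :
    Fluct F ω v := by
  obtain ⟨T, hT⟩ := h
  unfold Fluct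
  refine Set.infinite_of_forall_exists_gt fun n => ⟨T + (n + 1), ?_, by omega⟩
  rw [mem_ofPred_eq, hT _ (by omega)]
  intro h0
  have h1 : (1 : Fin κ) = 0 := by simpa using h0
  have h2 := congrArg Fin.val h1
  rw [Fin.val_one', Nat.mod_eq_of_lt (by omega)] at h2
  simp at h2

lemma law_one_of_ae {V : Type*} {κ : ℕ} [NeZero κ] {A : Set (V → Fin κ)}
    (h : ∀ᵐ ω ∂law V κ, ω ∈ A) : law V κ A = 1 := by
  have h1 : A =ᵐ[law V κ] univ := Filter.eventuallyEq_univ.2 h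
  rw [measure_congr h1, measure_univ]

/-- Both dynamics on a regular tree fluctuate at every vertex almost surely. -/
theorem both_one {V : Type*} (G : SimpleGraph V) (hG : G.IsTree) (d : ℕ) (hd : 1 ≤ d)
    (hdeg : ∀ v, (G.neighborSet v).ncard = d + 1) (κ θ : ℕ) [NeZero κ] (hκ : 2 ≤ κ) (ρ : V)
    (h : ∀ F : (Vert d → Fin κ) → Vert d → Fin κ, Adv θ F →
      (law (Vert d) κ) {ω | ¬ EvAdv F ω root} = 0) :
    law V κ {ω | Fluct (ccaStep G κ θ) ω ρ} = 1 ∧ law V κ {ω | Fluct (ghmStep G κ θ) ω ρ} = 1 := by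
  obtain ⟨h1, h2⟩ := both_ae G hG d hd hdeg κ θ h
  exact ⟨law_one_of_ae (h1.mono fun ω hω => fluct_of_steps hκ (hω ρ)),
    law_one_of_ae (h2.mono fun ω hω => fluct_of_steps hκ (hω ρ))⟩

end Pool.Agent.Helper99.CA
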